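import Mathlib
import Pool.Agent.H331R2.ChromLC

set_option autoImplicit false

open Finset Polynomial

namespace Pool.Agent.H6R3.BW

open Pool.Agent.H331R2.ChromLC

noncomputable section

open Classical

variable {V : Type*} [Fintype V] (G : SimpleGraph V)

/-- number of proper `k`-colourings of `G[B]` -/
def p (B : Finset V) (k : ℕ) : ℝ := (P G B).eval (k : ℝ)

/-- neighbourhood as a finset -/
def nb (z : V) : Finset V := Finset.univ.filter (fun x => G.Adj z x)

lemma mem_nb {z x : V} : x ∈ nb G z ↔ G.Adj z x := by simp [nb]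

/-- number of pairs (proper `(k+1)`-colouring of `G[B]`, colour not used on `N`) -/
def Q (B N : Finset V) (k : ℕ) : ℝ :=
  ((k : ℝ) + 1) * ∑ S ∈ (J G B).filter (fun S => Disjoint S N), p G (B \ S) k

lemma p_nonneg (B : Finset V) (k : ℕ) : 0 ≤ p G B k := by
  unfold p; rw [P_nat]; positivity

lemma p_pos (B : Finset V) (k : ℕ) (h : B.card ≤ k) : 0 < p G B k := by
  unfold p
  apply pos G
  have : (B.card : ℝ) ≤ (k : ℝ) := by exact_mod_cast h
  linarith

lemma Q_nonneg (B N : Finset V) (k : ℕ) : 0 ≤ Q G B N k := by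
  unfold Q
  refine mul_nonneg (by positivity) (Finset.sum_nonneg fun S _ => p_nonneg G _ _)

lemma Q_anti (B : Finset V) {N N' : Finset V} (h : N ⊆ N') (k : ℕ) : Q G B N' k ≤ Q G B N k := by
  unfold Q
  refine mul_le_mul_of_nonneg_left ?_ (by positivity)
  refine Finset.sum_le_sum_of_subset_of_nonneg ?_ (fun S _ _ => p_nonneg G _ _)
  intro S hS
  rw [Finset.mem_filter] at hS ⊢
  exact ⟨hS.1, Finset.disjoint_of_subset_right h hS.2⟩

lemma Q_congr (B : Finset V) {N N' : Finset V} (h : ∀ s ∈ B, (s ∈ N ↔ s ∈ N')) (k : ℕ) :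
    Q G B N k = Q G B N' k := by
  unfold Q
  congr 1
  refine Finset.sum_congr ?_ (fun _ _ => rfl)
  refine Finset.filter_congr ?_
  intro S hS
  have hSB : S ⊆ B := ((mem_J G).1 hS).1
  rw [Finset.disjoint_left, Finset.disjoint_left]
  constructor
  · intro h1 s hs hs'; exact h1 hs ((h s (hSB hs)).2 hs')
  · intro h1 s hs hs'; exact h1 hs ((h s (hSB hs)).1 hs')

lemma Q_empty (B : Finset V) (k : ℕ) : Q G B ∅ k = ((k : ℝ) + 1) * p G B (k + 1) := by
  unfold Q p
  congr 1
  push_cast
  rw [eval_succ]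
  refine Finset.sum_congr ?_ (fun _ _ => rfl)
  rw [Finset.filter_true_of_mem]
  intro S _
  exact Finset.disjoint_empty_right S

lemma Q_insert (B : Finset V) (v : V) (hv : v ∉ B) (k : ℕ) :
    p G (insert v B) (k + 1) = Q G B (nb G v) k := by
  unfold Q p
  push_cast
  rw [eval_insert G B v hv]
  congr 1
  refine Finset.sum_congr ?_ (fun _ _ => rfl)
  refine Finset.filter_congr ?_
  intro S _
  rw [Finset.disjoint_left]
  simp only [mem_nb]

lemma Q_rec (B N : Finset V) (z : V) (hz : z ∈ B) (hzN : z ∉ N) (k : ℕ) :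
    Q G B (insert z N) k = Q G B N k - Q G (B.erase z) (N ∪ nb G z) k := by
  have key : ∑ S ∈ (J G B).filter (fun S => Disjoint S N), p G (B \ S) k
      = ∑ S ∈ (J G B).filter (fun S => Disjoint S (insert z N)), p G (B \ S) k
        + ∑ S ∈ (J G (B.erase z)).filter (fun S => Disjoint S (N ∪ nb G z)),
            p G ((B.erase z) \ S) k := by
    rw [← Finset.sum_filter_add_sum_filter_not ((J G B).filter (fun S => Disjoint S N))
      (fun S => z ∉ S)]
    congr 1
    · rw [Finset.filter_filter]
      refine Finset.sum_congr ?_ (fun _ _ => rfl)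
      refine Finset.filter_congr ?_
      intro S _
      rw [Finset.disjoint_insert_right]
      tauto
    · rw [Finset.filter_filter]
      refine Finset.sum_nbij' (fun S => S.erase z) (fun S => insert z S) ?_ ?_ ?_ ?_ ?_
      · intro S hS
        simp only [Finset.mem_filter, mem_J, not_not] at hS ⊢
        obtain ⟨⟨hSB, hind⟩, hdis, hzS⟩ := hS
        refine ⟨⟨Finset.erase_subset_erase z hSB, ?_⟩, ?_⟩
        · intro a ha b hb
          exact hind a (Finset.mem_of_mem_erase ha) b (Finset.mem_of_mem_erase hb)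
        · rw [Finset.disjoint_left]
          intro a ha
          rw [Finset.mem_union, not_or, mem_nb]
          have ha' := Finset.mem_of_mem_erase ha
          exact ⟨Finset.disjoint_left.1 hdis ha', hind z hzS a ha'⟩
      · intro S hS
        simp only [Finset.mem_filter, mem_J, not_not] at hS ⊢
        obtain ⟨⟨hSB, hind⟩, hdis⟩ := hS
        have hdis' := Finset.disjoint_left.1 hdis
        refine ⟨⟨?_, ?_⟩, ?_, Finset.mem_insert_self z S⟩
        · intro a ha
          rcases Finset.mem_insert.1 ha with rfl | ha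
          · exact hz
          · exact Finset.mem_of_mem_erase (hSB ha)
        · intro a ha b hb
          rcases Finset.mem_insert.1 ha with h1 | h1
          · rcases Finset.mem_insert.1 hb with h2 | h2
            · rw [h1, h2]; exact G.loopless.irrefl _
            · have := hdis' h2
              rw [Finset.mem_union, not_or, mem_nb] at this
              rw [h1]
              exact this.2
          · rcases Finset.mem_insert.1 hb with h2 | h2
            · have := hdis' h1
              rw [Finset.mem_union, not_or, mem_nb] at this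
              rw [h2]
              exact fun h => this.2 h.symm
            · exact hind a h1 b h2
        · rw [Finset.disjoint_left]
          intro a ha
          rcases Finset.mem_insert.1 ha with rfl | ha
          · exact hzN
          · have := hdis' ha
            rw [Finset.mem_union, not_or] at this
            exact this.1
      · intro S hS
        simp only [Finset.mem_filter, not_not] at hS
        exact Finset.insert_erase hS.2.2
      · intro S hS
        simp only [Finset.mem_filter, mem_J] at hS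
        refine Finset.erase_insert ?_
        intro h
        exact (Finset.notMem_erase z B) (hS.1.1 h)
      · intro S hS
        simp only [Finset.mem_filter, mem_J, not_not] at hS
        congr 1
        ext a
        simp only [Finset.mem_sdiff, Finset.mem_erase]
        constructor
        · rintro ⟨h1, h2⟩
          refine ⟨⟨?_, h1⟩, fun h => h2 h.2⟩
          rintro rfl
          exact h2 hS.2.2
        · rintro ⟨⟨h1, h2⟩, h3⟩
          exact ⟨h2, fun h => h3 ⟨h1, h⟩⟩
  unfold Q
  rw [key]
  ring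

/-- Locality -/
lemma C_local (G' : SimpleGraph V) (B : Finset V)
    (h : ∀ a ∈ B, ∀ b ∈ B, (G.Adj a b ↔ G'.Adj a b)) (k : ℕ) : C G B k = C G' B k := by
  ext f
  rw [mem_C, mem_C]
  constructor
  · rintro ⟨h1, h2, h3⟩
    refine ⟨h1, h2, fun a b hab ha => ?_⟩
    by_cases hb : f b ≠ 0
    · exact h3 a b ((h a ((h2 a).1 ha) b ((h2 b).1 hb)).2 hab) ha
    · push Not at hb
      rw [hb]; exact ha
  · rintro ⟨h1, h2, h3⟩
    refine ⟨h1, h2, fun a b hab ha => ?_⟩
    by_cases hb : f b ≠ 0
    · exact h3 a b ((h a ((h2 a).1 ha) b ((h2 b).1 hb)).1 hab) ha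
    · push Not at hb
      rw [hb]; exact ha

lemma P_local (G' : SimpleGraph V) (B : Finset V)
    (h : ∀ a ∈ B, ∀ b ∈ B, (G.Adj a b ↔ G'.Adj a b)) : P G B = P G' B := by
  apply poly_ext
  intro k
  rw [P_nat, P_nat, C_local G G' B h k]

lemma J_local (G' : SimpleGraph V) (B : Finset V)
    (h : ∀ a ∈ B, ∀ b ∈ B, (G.Adj a b ↔ G'.Adj a b)) : J G B = J G' B := by
  ext S
  rw [mem_J, mem_J]
  constructor
  · rintro ⟨h1, h2⟩
    exact ⟨h1, fun a ha b hb hab => h2 a ha b hb ((h a (h1 ha) b (h1 hb)).2 hab)⟩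
  · rintro ⟨h1, h2⟩
    exact ⟨h1, fun a ha b hb hab => h2 a ha b hb ((h a (h1 ha) b (h1 hb)).1 hab)⟩

lemma Q_local (G' : SimpleGraph V) (B N : Finset V)
    (h : ∀ a ∈ B, ∀ b ∈ B, (G.Adj a b ↔ G'.Adj a b)) (k : ℕ) : Q G B N k = Q G' B N k := by
  unfold Q p
  rw [J_local G G' B h]
  congr 1
  refine Finset.sum_congr rfl ?_
  intro S _
  rw [P_local G G' (B \ S)]
  intro a ha b hb
  exact h a (Finset.mem_sdiff.1 ha).1 b (Finset.mem_sdiff.1 hb).1

/-- the graph obtained from `G` by re-attaching `v` to `N` -/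
def reatt (v : V) (N : Finset V) : SimpleGraph V where
  Adj a b := (a ≠ v ∧ b ≠ v ∧ G.Adj a b) ∨ (a = v ∧ b ≠ v ∧ b ∈ N) ∨ (b = v ∧ a ≠ v ∧ a ∈ N)
  symm := ⟨by
    intro a b h
    rcases h with ⟨h1, h2, h3⟩ | ⟨h1, h2, h3⟩ | ⟨h1, h2, h3⟩
    · exact Or.inl ⟨h2, h1, h3.symm⟩
    · exact Or.inr (Or.inr ⟨h1, h2, h3⟩)
    · exact Or.inr (Or.inl ⟨h1, h2, h3⟩)⟩
  loopless := ⟨by
    intro a h
    rcases h with ⟨h1, h2, h3⟩ | ⟨h1, h2, h3⟩ | ⟨h1, h2, h3⟩
    · exact G.loopless.irrefl _ h3
    · exact h2 h1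
    · exact h2 h1⟩

lemma Q_mono (B N : Finset V) (v : V) (hv : v ∉ B) (k : ℕ) (hB : B.card < k + 1) :
    Q G B N k * p G B (k + 2) ≤ Q G B N (k + 1) * p G B (k + 1) := by
  set G' := reatt G v N with hG'
  have hloc : ∀ a ∈ B, ∀ b ∈ B, (G.Adj a b ↔ G'.Adj a b) := by
    intro a ha b hb
    have hav : a ≠ v := fun h => hv (h ▸ ha)
    have hbv : b ≠ v := fun h => hv (h ▸ hb)
    simp [hG', reatt, hav, hbv]
  have hM := M_all G' B v hv ((k : ℝ) + 1) (by exact_mod_cast hB)
  unfold M at hM
  have hN : ∀ j, Q G B N j = p G' (insert v B) (j + 1) := by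
    intro j
    rw [Q_insert G' B v hv j, Q_local G G' B N hloc j]
    refine Q_congr G' B ?_ j
    intro s hs
    have hsv : s ≠ v := fun h => hv (h ▸ hs)
    rw [mem_nb]
    simp [hG', reatt, hsv]
  have hp : ∀ j, p G B j = p G' B j := by
    intro j
    unfold p
    rw [P_local G G' B hloc]
  rw [hN k, hN (k + 1), hp, hp]
  unfold p
  push_cast
  have e1 : (k : ℝ) + 1 + 1 = (k : ℝ) + 2 := by ring
  rw [e1] at hM ⊢
  exact hM

end

end Pool.Agent.H6R3.BW
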