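import Mathlib
import Pool.Agent.H6R3.BW.Basic

set_option autoImplicit false

open Finset Polynomial

namespace Pool.Agent.H6R3.BW

open Pool.Agent.H331R2.ChromLC

noncomputable section

open Classical

variable {V : Type*} [Fintype V] (G : SimpleGraph V)

/-- the expected number of colours (out of `k+1`) not used on `N` by a uniformly random
proper `(k+1)`-colouring of `G[B]` -/
def av (B N : Finset V) (k : ℕ) : ℝ := Q G B N k / p G B (k + 1)

lemma av_empty (B : Finset V) (k : ℕ) (hB : B.card ≤ k + 1) : av G B ∅ k = (k : ℝ) + 1 := by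
  unfold av
  rw [Q_empty, mul_div_assoc, div_self (p_pos G B (k + 1) hB).ne', mul_one]

lemma av_congr (B : Finset V) {N N' : Finset V} (h : ∀ s ∈ B, (s ∈ N ↔ s ∈ N')) (k : ℕ) :
    av G B N k = av G B N' k := by
  unfold av; rw [Q_congr G B h]

lemma av_insert_notMem (B N : Finset V) (z : V) (hz : z ∉ B) (k : ℕ) :
    av G B (insert z N) k = av G B N k := by
  apply av_congr
  intro s hs
  rw [Finset.mem_insert]
  constructor
  · rintro (rfl | h)
    · exact absurd hs hz
    · exact h
  · exact Or.inr

lemma av_nonneg (B N : Finset V) (k : ℕ) : 0 ≤ av G B N k :=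
  div_nonneg (Q_nonneg G B N k) (p_nonneg G B (k + 1))

lemma av_anti (B : Finset V) {N N' : Finset V} (h : N ⊆ N') (k : ℕ) :
    av G B N' k ≤ av G B N k :=
  div_le_div_of_nonneg_right (Q_anti G B h k) (p_nonneg G B (k + 1))

lemma p_erase (B : Finset V) (z : V) (hz : z ∈ B) (k : ℕ) :
    p G B (k + 1) = Q G (B.erase z) (nb G z) k := by
  have := Q_insert G (B.erase z) z (Finset.notMem_erase z B) k
  rwa [Finset.insert_erase hz] at this

lemma card_erase_lt (B : Finset V) (z : V) (hz : z ∈ B) : (B.erase z).card < B.card :=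
  Finset.card_erase_lt_of_mem hz

lemma av_nb_pos (B : Finset V) (z : V) (hz : z ∈ B) (k : ℕ) (hB : B.card ≤ k + 1) :
    0 < av G (B.erase z) (nb G z) k := by
  unfold av
  rw [← p_erase G B z hz]
  exact div_pos (p_pos G B (k + 1) hB)
    (p_pos G _ (k + 1) ((card_erase_lt B z hz).le.trans hB))

lemma av_rec (B N : Finset V) (z : V) (hz : z ∈ B) (hzN : z ∉ N) (k : ℕ)
    (hB : B.card ≤ k + 1) :
    av G B (insert z N) k = av G B N k
      - av G (B.erase z) (N ∪ nb G z) k / av G (B.erase z) (nb G z) k := by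
  have h' : p G (B.erase z) (k + 1) ≠ 0 :=
    (p_pos G _ (k + 1) ((card_erase_lt B z hz).le.trans hB)).ne'
  unfold av
  rw [Q_rec G B N z hz hzN, div_div_div_cancel_right₀ h', ← p_erase G B z hz, sub_div]

lemma av_le (B N : Finset V) (k : ℕ) (hB : B.card ≤ k + 1) : av G B N k ≤ (k : ℝ) + 1 := by
  rw [← av_empty G B k hB]
  exact av_anti G B (Finset.empty_subset N) k

lemma av_ge (B : Finset V) (k : ℕ) (hB : B.card ≤ k + 1) (N : Finset V) :
    (k : ℝ) + 1 - (N.card : ℝ) ≤ av G B N k := by
  induction N using Finset.induction_on with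
  | empty => rw [av_empty G B k hB]; simp
  | insert z N hzN ih =>
    rw [Finset.card_insert_of_notMem hzN]
    push_cast
    by_cases hz : z ∈ B
    · rw [av_rec G B N z hz hzN k hB]
      have hpos := av_nb_pos G B z hz k hB
      have : av G (B.erase z) (N ∪ nb G z) k / av G (B.erase z) (nb G z) k ≤ 1 := by
        rw [div_le_one hpos]
        exact av_anti G _ Finset.subset_union_right k
      linarith
    · rw [av_insert_notMem G B N z hz]
      linarith

lemma av_mono (B N : Finset V) (v : V) (hv : v ∉ B) (k : ℕ) (hB : B.card < k + 1) :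
    av G B N k ≤ av G B N (k + 1) := by
  unfold av
  rw [div_le_div_iff₀ (p_pos G B (k + 1) hB.le) (p_pos G B (k + 1 + 1) (by omega))]
  exact Q_mono G B N v hv k hB

lemma real_step1 (α α' β β' K D : ℝ) (hα : 0 ≤ α) (hαβ : α ≤ β) (hαα : α ≤ α')
    (hβ : 0 < β) (hββ : β ≤ β') (hD : 0 ≤ D) (hK : 2 * D < K) (hβ' : K - D ≤ β')
    (hd : β' - β ≤ 1 + D / (K - 2 * D)) :
    -(1 / (K - 2 * D)) ≤ α' / β' - α / β := by
  have hβ0 : 0 < β' := hβ.trans_le hββ
  have h1 : α / β' ≤ α' / β' := div_le_div_of_nonneg_right hαα hβ0.le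
  have hKD : 0 < K - 2 * D := by linarith
  have hKD' : 0 < K - D := by linarith
  have h2 : α / β - α / β' ≤ (β' - β) / β' := by
    rw [div_sub_div _ _ hβ.ne' hβ0.ne', div_le_div_iff₀ (mul_pos hβ hβ0) hβ0]
    have : (α * β' - β * α) * β' = α * ((β' - β) * β') := by ring
    rw [this]
    have h3 : (β' - β) * (β * β') = β * ((β' - β) * β') := by ring
    rw [h3]
    exact mul_le_mul_of_nonneg_right hαβ (mul_nonneg (by linarith) hβ0.le)
  have h3 : (β' - β) / β' ≤ 1 / (K - 2 * D) := by
    have e : 1 + D / (K - 2 * D) = (K - D) / (K - 2 * D) := by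
      rw [eq_div_iff hKD.ne', add_mul, div_mul_cancel₀ _ hKD.ne']
      ring
    rw [e] at hd
    calc (β' - β) / β' ≤ ((K - D) / (K - 2 * D)) / β' :=
          div_le_div_of_nonneg_right hd hβ0.le
      _ ≤ ((K - D) / (K - 2 * D)) / (K - D) :=
          div_le_div_of_nonneg_left (by positivity) hKD' hβ'
      _ = 1 / (K - 2 * D) := by field_simp
  linarith

lemma real_step2 (α α' β β' K D M : ℝ) (hα' : 0 ≤ α')
    (hβ : 0 < β) (hββ : β ≤ β') (hD : 0 ≤ D) (hK : 2 * D < K) (hβ1 : K - D ≤ β)
    (hM : 0 ≤ M) (hαα : α ≤ α')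
    (hd : α' - α ≤ 1 + M / (K - 2 * D)) :
    α' / β' - α / β ≤ (K - 2 * D + M) / ((K - 2 * D) * (K - D)) := by
  have hKD : 0 < K - 2 * D := by linarith
  have hKD' : 0 < K - D := by linarith
  have h1 : α' / β' ≤ α' / β := div_le_div_of_nonneg_left hα' hβ hββ
  have h2 : α' / β - α / β = (α' - α) / β := by rw [sub_div]
  have h3 : (α' - α) / β ≤ (1 + M / (K - 2 * D)) / (K - D) := by
    calc (α' - α) / β ≤ (α' - α) / (K - D) :=
          div_le_div_of_nonneg_left (by linarith) hKD' hβ1
      _ ≤ _ := div_le_div_of_nonneg_right hd hKD'.le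
  have h4 : (1 + M / (K - 2 * D)) / (K - D) = (K - 2 * D + M) / ((K - 2 * D) * (K - D)) := by
    field_simp
  linarith

/-- Upper bound for the increments. -/
theorem av_upper (D k : ℕ) (hD : ∀ z, (nb G z).card ≤ D) (hk : 2 * D < k + 1) :
    ∀ m : ℕ, ∀ B : Finset V, B.card ≤ m → B.card ≤ k + 1 → ∀ N : Finset V,
      av G B N (k + 1) - av G B N k ≤ 1 + (N.card : ℝ) / ((k : ℝ) + 1 - 2 * D) := by
  have hkR : 2 * (D : ℝ) < (k : ℝ) + 1 := by exact_mod_cast hk
  have hpos : 0 < (k : ℝ) + 1 - 2 * D := by linarith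
  intro m
  induction m with
  | zero =>
    intro B hB _ N
    have hB0 : B = ∅ := Finset.card_eq_zero.1 (by omega)
    subst hB0
    rw [av_congr G ∅ (N := N) (N' := ∅) (by simp) k,
      av_congr G ∅ (N := N) (N' := ∅) (by simp) (k + 1),
      av_empty G ∅ k (by simp), av_empty G ∅ (k + 1) (by simp)]
    push_cast
    have : 0 ≤ (N.card : ℝ) / ((k : ℝ) + 1 - 2 * D) := by positivity
    linarith
  | succ m ih =>
    intro B hBm hB N
    induction N using Finset.induction_on with
    | empty =>
      rw [av_empty G B k hB, av_empty G B (k + 1) (by omega)]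
      push_cast
      simp
    | insert z N hzN ihN =>
      rw [Finset.card_insert_of_notMem hzN]
      push_cast
      have hsplit : ((N.card : ℝ) + 1) / ((k : ℝ) + 1 - 2 * D)
          = (N.card : ℝ) / ((k : ℝ) + 1 - 2 * D) + 1 / ((k : ℝ) + 1 - 2 * D) := by
        rw [add_div]
      rw [hsplit]
      by_cases hz : z ∈ B
      · rw [av_rec G B N z hz hzN k hB, av_rec G B N z hz hzN (k + 1) (by omega)]
        have hlt := card_erase_lt B z hz
        have hcard : (B.erase z).card < k + 1 := by omega
        have hstep := real_step1 (av G (B.erase z) (N ∪ nb G z) k)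
          (av G (B.erase z) (N ∪ nb G z) (k + 1)) (av G (B.erase z) (nb G z) k)
          (av G (B.erase z) (nb G z) (k + 1)) ((k : ℝ) + 1) D
          (av_nonneg G _ _ _) (av_anti G _ Finset.subset_union_right k)
          (av_mono G _ _ z (Finset.notMem_erase z B) k hcard)
          (av_nb_pos G B z hz k hB)
          (av_mono G _ _ z (Finset.notMem_erase z B) k hcard)
          (by positivity) hkR
          (by
            have h1 := av_ge G (B.erase z) (k + 1) (by omega) (nb G z)
            have h2 : ((nb G z).card : ℝ) ≤ D := by exact_mod_cast hD z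
            push_cast at h1
            linarith)
          (by
            have h1 := ih (B.erase z) (by omega) (by omega) (nb G z)
            have h2 : ((nb G z).card : ℝ) ≤ D := by exact_mod_cast hD z
            have h3 : ((nb G z).card : ℝ) / ((k : ℝ) + 1 - 2 * D)
                ≤ (D : ℝ) / ((k : ℝ) + 1 - 2 * D) := div_le_div_of_nonneg_right h2 hpos.le
            linarith)
        linarith
      · rw [av_insert_notMem G B N z hz, av_insert_notMem G B N z hz]
        have : 0 ≤ 1 / ((k : ℝ) + 1 - 2 * D) := by positivity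
        linarith

/-- Lower bound for the increments. -/
theorem av_lower (D k d : ℕ) (hD : ∀ z, (nb G z).card ≤ D) (hk : 2 * D < k + 1)
    (B : Finset V) (hB : B.card ≤ k + 1) (N : Finset V) (hN : N.card ≤ d) :
      1 - (N.card : ℝ) * (((k : ℝ) + 1 - D + d) / (((k : ℝ) + 1 - 2 * D) * ((k : ℝ) + 1 - D)))
        ≤ av G B N (k + 1) - av G B N k := by
  have hkR : 2 * (D : ℝ) < (k : ℝ) + 1 := by exact_mod_cast hk
  have hpos : 0 < (k : ℝ) + 1 - 2 * D := by linarith
  have hpos' : 0 < (k : ℝ) + 1 - D := by
    have : (0 : ℝ) ≤ D := by positivity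
    linarith
  have hd0 : (0 : ℝ) ≤ d := by positivity
  induction N using Finset.induction_on with
  | empty =>
    rw [av_empty G B k hB, av_empty G B (k + 1) (by omega)]
    push_cast
    simp
  | insert z N hzN ihN =>
    rw [Finset.card_insert_of_notMem hzN] at hN ⊢
    have ih := ihN (by omega)
    push_cast
    set lam := ((k : ℝ) + 1 - D + d) / (((k : ℝ) + 1 - 2 * D) * ((k : ℝ) + 1 - D)) with hlam
    have hlam0 : 0 ≤ lam := by
      rw [hlam]; apply div_nonneg
      · linarith
      · positivity
    by_cases hz : z ∈ B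
    · rw [av_rec G B N z hz hzN k hB, av_rec G B N z hz hzN (k + 1) (by omega)]
      have hlt := card_erase_lt B z hz
      have hcard : (B.erase z).card < k + 1 := by omega
      have hstep := real_step2 (av G (B.erase z) (N ∪ nb G z) k)
        (av G (B.erase z) (N ∪ nb G z) (k + 1)) (av G (B.erase z) (nb G z) k)
        (av G (B.erase z) (nb G z) (k + 1)) ((k : ℝ) + 1) D ((d : ℝ) + D)
        (av_nonneg G _ _ _) (av_nb_pos G B z hz k hB)
        (av_mono G _ _ z (Finset.notMem_erase z B) k hcard)
        (by positivity) hkR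
        (by
          have h1 := av_ge G (B.erase z) k (by omega) (nb G z)
          have h2 : ((nb G z).card : ℝ) ≤ D := by exact_mod_cast hD z
          linarith)
        (by positivity)
        (av_mono G _ _ z (Finset.notMem_erase z B) k hcard)
        (by
          have h1 := av_upper G D k hD hk (B.erase z).card (B.erase z) le_rfl (by omega)
            (N ∪ nb G z)
          have h2 : ((N ∪ nb G z).card : ℝ) ≤ (d : ℝ) + D := by
            have := Finset.card_union_le N (nb G z)
            have h3 := hD z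
            have h4 : (N ∪ nb G z).card ≤ d + D := by omega
            exact_mod_cast h4
          have h3 : ((N ∪ nb G z).card : ℝ) / ((k : ℝ) + 1 - 2 * D)
              ≤ ((d : ℝ) + D) / ((k : ℝ) + 1 - 2 * D) := div_le_div_of_nonneg_right h2 hpos.le
          linarith)
      have e : ((k : ℝ) + 1 - 2 * D + ((d : ℝ) + D)) = (k : ℝ) + 1 - D + d := by ring
      rw [e, ← hlam] at hstep
      linarith
    · rw [av_insert_notMem G B N z hz, av_insert_notMem G B N z hz]
      linarith

end

end Pool.Agent.H6R3.BW
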