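import Mathlib
import Pool.Agent.H6R3.BW.Step

set_option autoImplicit false

open Finset Polynomial

namespace Pool.Agent.H6R3.BW

open Pool.Agent.H331R2.ChromLC

noncomputable section

open Classical

lemma num1 (K d D : ℝ) (hd : 1 ≤ d) (hD : d ≤ D) (hK : 7 * d + 2 * D - 1 ≤ K) :
    d * (K - D + d) ≤ (K - 2 * D) * (K - D) := by
  obtain ⟨r, hr⟩ : ∃ r, r = d - 1 := ⟨_, rfl⟩
  obtain ⟨s, hs⟩ : ∃ s, s = D - d := ⟨_, rfl⟩
  obtain ⟨t, ht⟩ : ∃ t, t = K - (7 * d + 2 * D - 1) := ⟨_, rfl⟩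
  have hr0 : 0 ≤ r := by linarith
  have hs0 : 0 ≤ s := by linarith
  have ht0 : 0 ≤ t := by linarith
  have e1 : d = r + 1 := by linarith
  have e2 : D = r + 1 + s := by linarith
  have e3 : K = 9 * r + 2 * s + t + 8 := by linarith
  rw [← sub_nonneg]
  have : (K - 2 * D) * (K - D) - d * (K - D + d)
      = 47 * r ^ 2 + 6 * r * s + 14 * r * t + 80 * r + 1 * s * t + 5 * s + 1 * t ^ 2
        + 12 * t + 34 := by
    rw [e1, e2, e3]; ring
  rw [this]; positivity

lemma num2 (K d D : ℝ) (hd : 1 ≤ d) (hD : d ≤ D) (hK : 7 * d + 2 * D - 1 ≤ K) :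
    K * (K - D) * (K - 2 * D + 2 * d - 2)
      ≤ 2 * (K - 2 * d + 2) * ((K - 2 * D) * (K - D) - d * (K - D + d)) := by
  obtain ⟨r, hr⟩ : ∃ r, r = d - 1 := ⟨_, rfl⟩
  obtain ⟨s, hs⟩ : ∃ s, s = D - d := ⟨_, rfl⟩
  obtain ⟨t, ht⟩ : ∃ t, t = K - (7 * d + 2 * D - 1) := ⟨_, rfl⟩
  have hr0 : 0 ≤ r := by linarith
  have hs0 : 0 ≤ s := by linarith
  have ht0 : 0 ≤ t := by linarith
  have e1 : d = r + 1 := by linarith
  have e2 : D = r + 1 + s := by linarith
  have e3 : K = 9 * r + 2 * s + t + 8 := by linarith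
  rw [← sub_nonneg]
  have : 2 * (K - 2 * d + 2) * ((K - 2 * D) * (K - D) - d * (K - D + d))
      - K * (K - D) * (K - 2 * D + 2 * d - 2)
      = 10 * r ^ 3 + 47 * r ^ 2 * s + 65 * r ^ 2 * t + 297 * r ^ 2 + 6 * r * s ^ 2
        + 30 * r * s * t + 138 * r * s + 16 * r * t ^ 2 + 188 * r * t + 490 * r
        + 2 * s ^ 2 * t + 8 * s ^ 2 + 3 * s * t ^ 2 + 34 * s * t + 84 * s + 1 * t ^ 3
        + 19 * t ^ 2 + 114 * t + 208 := by
    rw [e1, e2, e3]; ring
  rw [this]; positivity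

/-- The purely numerical final step. -/
lemma final_core (K e c c' A0 A1 B0 B1 α0 α1 : ℝ) (hc0 : 0 ≤ c) (hc'0 : 0 ≤ c')
    (hKe : 0 ≤ K - e) (hkey : K * c' ≤ 2 * (K - e) * c)
    (hA0 : 0 ≤ A0) (hA0' : A0 ≤ K) (hB0 : 0 ≤ B0) (hB0' : B0 ≤ K)
    (hA1 : c ≤ A1 - A0) (hB1 : c ≤ B1 - B0)
    (hα1 : α1 - α0 ≤ c') (hα0 : K - e ≤ α0) :
    A0 * B0 * α1 ≤ α0 * (A1 * B1) := by
  have hα00 : 0 ≤ α0 := by linarith
  have hA : A0 + c ≤ A1 := by linarith
  have hB : B0 + c ≤ B1 := by linarith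
  have hAB : (A0 + c) * (B0 + c) ≤ A1 * B1 :=
    mul_le_mul hA hB (by linarith) (by linarith)
  have hAB' : A0 * B0 + c * (A0 + B0) ≤ A1 * B1 := by
    nlinarith [mul_nonneg hc0 hc0]
  have s1 : α0 * (A0 * B0 + c * (A0 + B0)) ≤ α0 * (A1 * B1) :=
    mul_le_mul_of_nonneg_left hAB' hα00
  have s2 : A0 * B0 * α1 ≤ A0 * B0 * (α0 + c') :=
    mul_le_mul_of_nonneg_left (by linarith) (mul_nonneg hA0 hB0)
  have s3 : 2 * (A0 * B0) ≤ K * (A0 + B0) := by
    nlinarith [mul_le_mul_of_nonneg_right hA0' hB0, mul_le_mul_of_nonneg_right hB0' hA0]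
  have s4 : (K - e) * (c * (A0 + B0)) ≤ α0 * (c * (A0 + B0)) :=
    mul_le_mul_of_nonneg_right (by linarith) (mul_nonneg hc0 (by linarith))
  have s5 : (K * c') * (A0 + B0) ≤ (2 * (K - e) * c) * (A0 + B0) :=
    mul_le_mul_of_nonneg_right hkey (by linarith)
  have s6 : c' * (2 * (A0 * B0)) ≤ c' * (K * (A0 + B0)) :=
    mul_le_mul_of_nonneg_left s3 hc'0
  nlinarith

lemma consts1 (K d D : ℝ) (hd : 1 ≤ d) (hD : d ≤ D)
    (hK : 7 * d + 2 * D - 1 ≤ K) :
    0 ≤ 1 - d * ((K - D + d) / ((K - 2 * D) * (K - D))) ∧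
    0 ≤ 1 + (2 * d - 2) / (K - 2 * D) ∧
    K * (1 + (2 * d - 2) / (K - 2 * D))
      ≤ 2 * (K - (2 * d - 2)) * (1 - d * ((K - D + d) / ((K - 2 * D) * (K - D)))) := by
  have h1 := num1 K d D hd hD hK
  have h2 := num2 K d D hd hD hK
  have hx : 0 < K - 2 * D := by linarith
  have hy : 0 < K - D := by linarith
  have hxy : 0 < (K - 2 * D) * (K - D) := mul_pos hx hy
  set c := 1 - d * ((K - D + d) / ((K - 2 * D) * (K - D))) with hc
  set c' := 1 + (2 * d - 2) / (K - 2 * D) with hc'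
  have ec : c * ((K - 2 * D) * (K - D)) = (K - 2 * D) * (K - D) - d * (K - D + d) := by
    rw [hc, sub_mul, one_mul, mul_assoc, div_mul_cancel₀ _ hxy.ne']
  have ec' : c' * (K - 2 * D) = K - 2 * D + 2 * d - 2 := by
    rw [hc', add_mul, one_mul, div_mul_cancel₀ _ hx.ne']; ring
  have hc0 : 0 ≤ c := by
    have : 0 ≤ c * ((K - 2 * D) * (K - D)) := by rw [ec]; linarith
    exact nonneg_of_mul_nonneg_left this hxy
  have hc'0 : 0 ≤ c' := by
    rw [hc']
    have : 0 ≤ (2 * d - 2) / (K - 2 * D) := div_nonneg (by linarith) hx.le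
    linarith
  refine ⟨hc0, hc'0, ?_⟩
  have h3 : (K * c') * ((K - 2 * D) * (K - D))
      ≤ (2 * (K - (2 * d - 2)) * c) * ((K - 2 * D) * (K - D)) := by
    have e1 : (K * c') * ((K - 2 * D) * (K - D))
        = K * (K - D) * (K - 2 * D + 2 * d - 2) := by rw [← ec']; ring
    have e2 : (2 * (K - (2 * d - 2)) * c) * ((K - 2 * D) * (K - D))
        = 2 * (K - 2 * d + 2) * ((K - 2 * D) * (K - D) - d * (K - D + d)) := by
      rw [← ec]; ring
    rw [e1, e2]; exact h2
  exact le_of_mul_le_mul_right h3 hxy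

lemma consts2 (K d D : ℝ) (hd : 1 ≤ d) (hD : 0 ≤ D)
    (hK : 3 * d ^ 2 + D - 1 ≤ K) :
    0 ≤ 1 - d * (d - 1) / (2 * (K - D)) ∧
    0 ≤ 1 + (2 * d - 2) * (2 * d - 2) / (2 * (K - D)) ∧
    K * (1 + (2 * d - 2) * (2 * d - 2) / (2 * (K - D)))
      ≤ 2 * (K - (2 * d - 2)) * (1 - d * (d - 1) / (2 * (K - D))) := by
  obtain ⟨r, hr⟩ : ∃ r, r = d - 1 := ⟨_, rfl⟩
  have hr0 : 0 ≤ r := by linarith
  have e1 : d = r + 1 := by linarith
  obtain ⟨t, ht⟩ : ∃ t, t = K - (3 * d ^ 2 + D - 1) := ⟨_, rfl⟩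
  have ht0 : 0 ≤ t := by linarith
  have e3 : K = 3 * r ^ 2 + 6 * r + 2 + t + D := by
    rw [e1] at ht; linarith [ht]
  have hX : 0 < 2 * (K - D) := by
    rw [e3]; nlinarith [sq_nonneg r]
  set c := 1 - d * (d - 1) / (2 * (K - D)) with hc
  set c' := 1 + (2 * d - 2) * (2 * d - 2) / (2 * (K - D)) with hc'
  have ec : c * (2 * (K - D)) = 2 * (K - D) - d * (d - 1) := by
    rw [hc, sub_mul, one_mul, div_mul_cancel₀ _ hX.ne']
  have ec' : c' * (2 * (K - D)) = 2 * (K - D) + (2 * d - 2) * (2 * d - 2) := by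
    rw [hc', add_mul, one_mul, div_mul_cancel₀ _ hX.ne']
  have hc0 : 0 ≤ c := by
    have : 0 ≤ c * (2 * (K - D)) := by
      rw [ec]
      have : 2 * (K - D) - d * (d - 1) = 5 * r ^ 2 + 11 * r + 4 + 2 * t := by
        rw [e3, e1]; ring
      rw [this]; positivity
    exact nonneg_of_mul_nonneg_left this hX
  have hc'0 : 0 ≤ c' := by
    rw [hc']
    have : 0 ≤ (2 * d - 2) * (2 * d - 2) / (2 * (K - D)) :=
      div_nonneg (mul_self_nonneg _) hX.le
    linarith
  refine ⟨hc0, hc'0, ?_⟩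
  have h3 : (K * c') * (2 * (K - D)) ≤ (2 * (K - (2 * d - 2)) * c) * (2 * (K - D)) := by
    have a1 : (K * c') * (2 * (K - D)) = K * (2 * (K - D) + (2 * d - 2) * (2 * d - 2)) := by
      rw [← ec']; ring
    have a2 : (2 * (K - (2 * d - 2)) * c) * (2 * (K - D))
        = 2 * (K - (2 * d - 2)) * (2 * (K - D) - d * (d - 1)) := by
      rw [← ec]; ring
    rw [a1, a2, ← sub_nonneg]
    have : 2 * (K - (2 * d - 2)) * (2 * (K - D) - d * (d - 1))
        - K * (2 * (K - D) + (2 * d - 2) * (2 * d - 2))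
        = 10 * r ^ 3 + 28 * r ^ 2 + 6 * r ^ 2 * t + 28 * r + 14 * r * t + 2 * t ^ 2 + 8 * t + 8
          + D * (10 * r + 4 + 2 * t) := by
      rw [e3, e1]; ring
    rw [this]; positivity
  exact le_of_mul_le_mul_right h3 hX

variable {V : Type*} [Fintype V] (G : SimpleGraph V)

lemma p_eq_av (B N : Finset V) (k : ℕ) (hB : B.card ≤ k + 1) :
    Q G B N k = p G B (k + 1) * av G B N k := by
  unfold av
  rw [mul_div_cancel₀ _ (p_pos G B (k + 1) hB).ne']

/-- upper bound for `av` via coincidences; one exceptional vertex `h` is allowed -/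
lemma av_step (B N : Finset V) (z : V) (hz : z ∈ B) (hzN : z ∉ N) (k D : ℕ)
    (hB : B.card ≤ k + 1) (hD : D < k + 1) (hzD : (nb G z).card ≤ D) :
    av G B (insert z N) k ≤ av G B N k - 1 + (N.card : ℝ) / ((k : ℝ) + 1 - D) := by
  rw [av_rec G B N z hz hzN k hB]
  have hlt := card_erase_lt B z hz
  have hβ := av_nb_pos G B z hz k hB
  have hβ1 := av_ge G (B.erase z) k (by omega) (nb G z)
  have hDR : (D : ℝ) < (k : ℝ) + 1 := by exact_mod_cast hD
  have hzDR : ((nb G z).card : ℝ) ≤ D := by exact_mod_cast hzD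
  set β := av G (B.erase z) (nb G z) k with hβdef
  set α := av G (B.erase z) (N ∪ nb G z) k with hαdef
  -- β - α ≤ |N|
  have hdiff : ∀ T : Finset V, β - (T.card : ℝ) ≤ av G (B.erase z) (T ∪ nb G z) k := by
    intro T
    induction T using Finset.induction_on with
    | empty => simp [hβdef]
    | insert y T hyT ih =>
      rw [Finset.card_insert_of_notMem hyT, Finset.insert_union]
      push_cast
      by_cases hy : y ∈ T ∪ nb G z
      · rw [Finset.insert_eq_of_mem hy]; linarith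
      · by_cases hyB : y ∈ B.erase z
        · rw [av_rec G (B.erase z) _ y hyB hy k (by omega)]
          have hpos := av_nb_pos G (B.erase z) y hyB k (by omega)
          have : av G ((B.erase z).erase y) (T ∪ nb G z ∪ nb G y) k
              / av G ((B.erase z).erase y) (nb G y) k ≤ 1 := by
            rw [div_le_one hpos]
            exact av_anti G _ Finset.subset_union_right k
          linarith
        · rw [av_insert_notMem G _ _ y hyB]; linarith
  have h1 := hdiff N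
  rw [← hαdef] at h1
  have h2 : 1 - (N.card : ℝ) / ((k : ℝ) + 1 - D) ≤ α / β := by
    have h3 : (N.card : ℝ) / β ≤ (N.card : ℝ) / ((k : ℝ) + 1 - D) :=
      div_le_div_of_nonneg_left (by positivity) (by linarith) (by linarith)
    have h4 : 1 - (N.card : ℝ) / β ≤ α / β := by
      rw [sub_le_iff_le_add, ← add_div, le_div_iff₀ hβ]
      linarith
    linarith
  linarith

lemma av_le2 (B N : Finset V) (h : V) (hNB : N ⊆ B) (k D : ℕ) (hB : B.card ≤ k + 1)
    (hD : D < k + 1) (hdeg : ∀ z ∈ N, z ≠ h → (nb G z).card ≤ D) :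
    av G B N k ≤ (k : ℝ) + 1 - (N.card : ℝ)
      + (N.card : ℝ) * ((N.card : ℝ) - 1) / (2 * ((k : ℝ) + 1 - D)) := by
  have hDR : 0 < (k : ℝ) + 1 - D := by
    have : (D : ℝ) < (k : ℝ) + 1 := by exact_mod_cast hD
    linarith
  -- base set
  obtain ⟨F, hFN, hF1, hFh⟩ : ∃ F : Finset V, F ⊆ N ∧ F.card ≤ 1 ∧ (∀ z ∈ N, z ∉ F → z ≠ h) := by
    by_cases hh : h ∈ N
    · exact ⟨{h}, by simpa using hh, by simp, fun z _ hz => by simpa using hz⟩
    · exact ⟨∅, by simp, by simp, fun z hz _ hzh => hh (hzh ▸ hz)⟩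
  have key : ∀ T : Finset V, T ⊆ N \ F → av G B (F ∪ T) k ≤ (k : ℝ) + 1 - ((F ∪ T).card : ℝ)
      + ((F ∪ T).card : ℝ) * (((F ∪ T).card : ℝ) - 1) / (2 * ((k : ℝ) + 1 - D)) := by
    intro T
    induction T using Finset.induction_on with
    | empty =>
      intro _
      rw [Finset.union_empty]
      rcases Nat.lt_or_ge F.card 1 with h0 | h1
      · have hF0 : F = ∅ := Finset.card_eq_zero.1 (by omega)
        subst hF0
        rw [av_empty G B k hB]; simp
      · have hF1' : F.card = 1 := by omega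
        obtain ⟨w, hw⟩ := Finset.card_eq_one.1 hF1'
        subst hw
        have hwB : w ∈ B := hNB (hFN (by simp))
        have e := av_rec G B ∅ w hwB (by simp) k hB
        rw [Finset.empty_union, div_self (av_nb_pos G B w hwB k hB).ne', av_empty G B k hB] at e
        have e' : ({w} : Finset V) = insert w ∅ := by simp
        rw [e', e]
        simp
    | insert z T hzT ih =>
      intro hsub
      have hT : T ⊆ N \ F := fun a ha => hsub (Finset.mem_insert_of_mem ha)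
      have hzNF := Finset.mem_sdiff.1 (hsub (Finset.mem_insert_self z T))
      have ih' := ih hT
      have hznot : z ∉ F ∪ T := by
        rw [Finset.mem_union, not_or]; exact ⟨hzNF.2, hzT⟩
      have hs := av_step G B (F ∪ T) z (hNB hzNF.1) hznot k D hB hD
        (hdeg z hzNF.1 (hFh z hzNF.1 hzNF.2))
      have e : F ∪ insert z T = insert z (F ∪ T) := Finset.union_insert z F T
      rw [e, Finset.card_insert_of_notMem hznot]
      push_cast
      have e2 : (((F ∪ T).card : ℝ) + 1) * (((F ∪ T).card : ℝ) + 1 - 1)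
            / (2 * ((k : ℝ) + 1 - D))
          = ((F ∪ T).card : ℝ) * (((F ∪ T).card : ℝ) - 1) / (2 * ((k : ℝ) + 1 - D))
            + ((F ∪ T).card : ℝ) / ((k : ℝ) + 1 - D) := by
        field_simp
        ring
      rw [e2]
      linarith
  have hfin := key (N \ F) (fun a ha => ha)
  have e : F ∪ N \ F = N := Finset.union_sdiff_of_subset hFN
  rw [e] at hfin
  exact hfin

/-- The common part of both cases: one edge `uv`, with abstract bounds for the increments. -/
theorem main_core (k : ℕ) (hn : Fintype.card V ≤ k + 2) (u v : V) (huv : G.Adj u v)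
    (d : ℕ) (c c' : ℝ) (hc0 : 0 ≤ c) (hc'0 : 0 ≤ c') (hu : (nb G u).card ≤ d)
    (hv : (nb G v).card ≤ d) (hKe : 0 ≤ (k : ℝ) + 1 - (2 * (d : ℝ) - 2))
    (hkey : ((k : ℝ) + 1) * c' ≤ 2 * ((k : ℝ) + 1 - (2 * (d : ℝ) - 2)) * c)
    (hA : ∀ B : Finset V, B.card ≤ k + 1 → ∀ N : Finset V, N ⊆ B → N.card ≤ d →
      (N ⊆ nb G u ∨ N ⊆ nb G v) → c ≤ av G B N (k + 1) - av G B N k)
    (hα : ∀ B : Finset V, B.card ≤ k + 1 → ∀ N : Finset V, N ⊆ B → N.card ≤ 2 * d - 2 →
      N ⊆ nb G u ∪ nb G v → av G B N (k + 1) - av G B N k ≤ c') :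
    p G Finset.univ (k + 1) * p (G.deleteEdges {s(u, v)}) Finset.univ (k + 2)
      ≤ p (G.deleteEdges {s(u, v)}) Finset.univ (k + 1) * p G Finset.univ (k + 2) := by
  set G' := G.deleteEdges {s(u, v)} with hG'
  have hne : u ≠ v := huv.ne
  set Bu := Finset.univ.erase u with hBu
  set H := Bu.erase v with hH
  have huBu : u ∉ Bu := Finset.notMem_erase u _
  have hvBu : v ∈ Bu := by simp [hBu, hne.symm]
  have huH : u ∉ H := by simp [hH, hBu]
  have hvH : v ∉ H := Finset.notMem_erase v _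
  have hcardBu : Bu.card ≤ k + 1 := by
    have : Bu.card < (Finset.univ : Finset V).card :=
      Finset.card_erase_lt_of_mem (Finset.mem_univ u)
    rw [Finset.card_univ] at this
    omega
  have hcardH : H.card < k + 1 := by
    have : H.card < Bu.card := Finset.card_erase_lt_of_mem hvBu
    omega
  have hins : insert u Bu = (Finset.univ : Finset V) := Finset.insert_erase (Finset.mem_univ u)
  have hins' : insert v H = Bu := Finset.insert_erase hvBu
  set Nu := (nb G u).erase v with hNu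
  set Nv := (nb G v).erase u with hNv
  have hvNu : v ∉ Nu := Finset.notMem_erase v _
  have hinsN : insert v Nu = nb G u := Finset.insert_erase ((mem_nb G).2 huv)
  have huNv : u ∉ Nv := Finset.notMem_erase u _
  have huu : u ∉ nb G u := by rw [mem_nb]; exact G.loopless.irrefl u
  have hvv : v ∉ nb G v := by rw [mem_nb]; exact G.loopless.irrefl v
  have hsubu : nb G u ⊆ Bu := by
    intro x hx
    have : x ≠ u := fun h => huu (h ▸ hx)
    simp [hBu, this]
  have hsubNu : Nu ⊆ H := by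
    intro x hx
    have h1 : x ≠ v := fun h => hvNu (h ▸ hx)
    have h2 := hsubu (Finset.mem_of_mem_erase hx)
    exact Finset.mem_erase.2 ⟨h1, h2⟩
  have hsubNv : Nv ⊆ H := by
    intro x hx
    have h1 : x ≠ u := fun h => huNv (h ▸ hx)
    have hx' : x ∈ nb G v := Finset.mem_of_mem_erase hx
    have h2 : x ≠ v := by
      intro h
      rw [h] at hx'
      exact hvv hx'
    simp [hH, hBu, h1, h2]
  -- formulas
  have fP : ∀ j, p G Finset.univ (j + 1) = Q G Bu (nb G u) j := by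
    intro j
    rw [← hins]; exact Q_insert G Bu u huBu j
  have fB : ∀ j, p G Bu (j + 1) = Q G H Nv j := by
    intro j
    rw [← hins', Q_insert G H v hvH j]
    apply Q_congr
    intro s hs
    have : s ≠ u := fun h => huH (h ▸ hs)
    simp [hNv, this]
  have fP' : ∀ j, p G' Finset.univ (j + 1) = Q G Bu Nu j := by
    intro j
    rw [← hins, Q_insert G' Bu u huBu j]
    have hloc : ∀ a ∈ Bu, ∀ b ∈ Bu, (G.Adj a b ↔ G'.Adj a b) := by
      intro a ha b hb
      have hau : a ≠ u := fun h => huBu (h ▸ ha)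
      have hbu : b ≠ u := fun h => huBu (h ▸ hb)
      rw [hG', SimpleGraph.deleteEdges_adj]
      simp [hau, hbu]
    rw [← Q_local G G' Bu _ hloc j]
    apply Q_congr
    intro s _
    rw [mem_nb, hG', SimpleGraph.deleteEdges_adj, hNu, Finset.mem_erase, mem_nb]
    simp only [Set.mem_singleton_iff, Sym2.eq_iff]
    constructor
    · rintro ⟨h1, h2⟩
      refine ⟨?_, h1⟩
      rintro rfl
      exact h2 (by simp)
    · rintro ⟨h1, h2⟩
      refine ⟨h2, ?_⟩
      rintro (⟨_, h3⟩ | ⟨h3, h4⟩)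
      · exact h1 h3
      · exact hne h3
  have fN : ∀ j, p G Finset.univ (j + 1) = p G' Finset.univ (j + 1) - Q G H (Nu ∪ Nv) j := by
    intro j
    rw [fP, fP', ← hinsN, Q_rec G Bu Nu v hvBu hvNu j]
    congr 1
    apply Q_congr
    intro s hs
    have : s ≠ u := fun h => huH (h ▸ hs)
    simp [hNv, this]
  -- values
  set h0 := p G H (k + 1) with hh0
  set h1 := p G H (k + 2) with hh1
  have h0pos : 0 < h0 := p_pos G H (k + 1) (by omega)
  have h1pos : 0 < h1 := p_pos G H (k + 2) (by omega)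
  set A0 := av G Bu (nb G u) k with hA0
  set A1 := av G Bu (nb G u) (k + 1) with hA1
  set B0 := av G H Nv k with hB0
  set B1 := av G H Nv (k + 1) with hB1
  set α0 := av G H (Nu ∪ Nv) k with hα0
  set α1 := av G H (Nu ∪ Nv) (k + 1) with hα1
  have eP0 : p G Finset.univ (k + 1) = h0 * B0 * A0 := by
    rw [fP k, p_eq_av G Bu _ k hcardBu, fB k, p_eq_av G H _ k (by omega)]
  have eP1 : p G Finset.univ (k + 2) = h1 * B1 * A1 := by
    rw [fP (k + 1), p_eq_av G Bu _ (k + 1) (by omega), fB (k + 1),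
      p_eq_av G H _ (k + 1) (by omega)]
  have eN0 : p G' Finset.univ (k + 1) = h0 * B0 * A0 + h0 * α0 := by
    have := fN k
    rw [p_eq_av G H _ k (by omega)] at this
    rw [← eP0]; linarith
  have eN1 : p G' Finset.univ (k + 2) = h1 * B1 * A1 + h1 * α1 := by
    have := fN (k + 1)
    rw [p_eq_av G H _ (k + 1) (by omega)] at this
    rw [← eP1]
    have e : h1 = p G H (k + 1 + 1) := rfl
    rw [e]
    linarith
  have hNuc : Nu.card + 1 = (nb G u).card := by
    rw [hNu]; exact Finset.card_erase_add_one ((mem_nb G).2 huv)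
  have hNvc : Nv.card + 1 = (nb G v).card := by
    rw [hNv]; exact Finset.card_erase_add_one ((mem_nb G).2 huv.symm)
  have hd1 : 1 ≤ d := by omega
  have hNwN : (Nu ∪ Nv).card ≤ 2 * d - 2 := by
    have := Finset.card_union_le Nu Nv
    omega
  have hNw : ((Nu ∪ Nv).card : ℝ) ≤ 2 * (d : ℝ) - 2 := by
    have h' : (Nu ∪ Nv).card + 2 ≤ 2 * d := by omega
    have h'' : ((Nu ∪ Nv).card : ℝ) + 2 ≤ 2 * (d : ℝ) := by exact_mod_cast h'
    linarith
  have hfin := final_core ((k : ℝ) + 1) (2 * (d : ℝ) - 2) c c' A0 A1 B0 B1 α0 α1 hc0 hc'0 hKe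
    hkey (av_nonneg G _ _ _) (av_le G _ _ k hcardBu) (av_nonneg G _ _ _)
    (av_le G _ _ k (by omega))
    (hA Bu hcardBu (nb G u) hsubu hu (Or.inl (Finset.Subset.refl _)))
    (hA H (by omega) Nv hsubNv (by omega) (Or.inr (Finset.erase_subset _ _)))
    (hα H (by omega) (Nu ∪ Nv) (Finset.union_subset hsubNu hsubNv) hNwN
      (Finset.union_subset_union (Finset.erase_subset _ _) (Finset.erase_subset _ _)))
    (by
      have h := av_ge G H k (by omega) (Nu ∪ Nv)
      linarith)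
  rw [eP0, eP1, eN0, eN1]
  have hh : 0 ≤ h0 * h1 := by positivity
  have := mul_le_mul_of_nonneg_left hfin hh
  nlinarith [this]

/-- Case (i): global maximum degree. -/
theorem main_global (k : ℕ) (hn : Fintype.card V ≤ k + 2) (u v : V) (huv : G.Adj u v)
    (D d : ℕ) (hD : ∀ z, (nb G z).card ≤ D) (hu : (nb G u).card ≤ d) (hv : (nb G v).card ≤ d)
    (hcond : 7 * d + 2 * D ≤ k + 2) :
    p G Finset.univ (k + 1) * p (G.deleteEdges {s(u, v)}) Finset.univ (k + 2)
      ≤ p (G.deleteEdges {s(u, v)}) Finset.univ (k + 1) * p G Finset.univ (k + 2) := by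
  obtain ⟨d', hd'D, hu', hv', hcond'⟩ : ∃ d' : ℕ, d' ≤ D ∧ (nb G u).card ≤ d' ∧
      (nb G v).card ≤ d' ∧ 7 * d' + 2 * D ≤ k + 2 := by
    by_cases h : d ≤ D
    · exact ⟨d, h, hu, hv, hcond⟩
    · exact ⟨D, le_rfl, hD u, hD v, by omega⟩
  have hd1 : 1 ≤ d' := by
    have : 0 < (nb G u).card := Finset.card_pos.2 ⟨v, (mem_nb G).2 huv⟩
    omega
  have hk2 : 2 * D < k + 1 := by omega
  have hkR : 2 * (D : ℝ) < (k : ℝ) + 1 := by exact_mod_cast hk2
  have hpos : 0 < (k : ℝ) + 1 - 2 * D := by linarith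
  have hDR0 : (0 : ℝ) ≤ D := by positivity
  have hpos' : 0 < (k : ℝ) + 1 - D := by linarith
  have hdR0 : (0 : ℝ) ≤ d' := by positivity
  have hdR1 : (1 : ℝ) ≤ d' := by exact_mod_cast hd1
  have hKR : (7 : ℝ) * d' + 2 * D ≤ (k : ℝ) + 2 := by exact_mod_cast hcond'
  have hlam0 : 0 ≤ ((k : ℝ) + 1 - D + d') / (((k : ℝ) + 1 - 2 * D) * ((k : ℝ) + 1 - D)) := by
    apply div_nonneg
    · linarith
    · positivity
  obtain ⟨hc0, hc'0, hkey⟩ := consts1 ((k : ℝ) + 1) d' D hdR1 (by exact_mod_cast hd'D)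
    (by linarith)
  refine main_core G k hn u v huv d' _ _ hc0 hc'0 hu' hv' (by linarith) hkey ?_ ?_
  · intro B hB N _ hN _
    have h := av_lower G D k d' hD hk2 B hB N hN
    have h2 : (N.card : ℝ) ≤ d' := by exact_mod_cast hN
    have h3 := mul_le_mul_of_nonneg_right h2 hlam0
    linarith
  · intro B hB N _ hN _
    have h := av_upper G D k hD hk2 B.card B le_rfl hB N
    have hN' : (N.card : ℝ) ≤ 2 * (d' : ℝ) - 2 := by
      have h' : N.card + 2 ≤ 2 * d' := by omega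
      have h'' : (N.card : ℝ) + 2 ≤ 2 * (d' : ℝ) := by exact_mod_cast h'
      linarith
    have h3 := div_le_div_of_nonneg_right hN' hpos.le
    linarith

/-- Case (ii): local condition; one exceptional neighbour `h` of arbitrary degree. -/
theorem main_local (k : ℕ) (hn : Fintype.card V ≤ k + 2) (u v : V) (huv : G.Adj u v)
    (D d : ℕ) (h : V) (hD : ∀ z, (G.Adj u z ∨ G.Adj v z) → z ≠ h → (nb G z).card ≤ D)
    (hu : (nb G u).card ≤ d) (hv : (nb G v).card ≤ d) (hcond : 3 * d ^ 2 + D ≤ k + 2) :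
    p G Finset.univ (k + 1) * p (G.deleteEdges {s(u, v)}) Finset.univ (k + 2)
      ≤ p (G.deleteEdges {s(u, v)}) Finset.univ (k + 1) * p G Finset.univ (k + 2) := by
  have hd1 : 1 ≤ d := by
    have : 0 < (nb G u).card := Finset.card_pos.2 ⟨v, (mem_nb G).2 huv⟩
    omega
  have hdd : d ≤ d ^ 2 := by nlinarith
  have hDk : D < k + 1 := by
    have : 1 ≤ d ^ 2 := Nat.one_le_pow _ _ hd1
    omega
  have hDR : (D : ℝ) < (k : ℝ) + 1 := by exact_mod_cast hDk
  have hpos : 0 < (k : ℝ) + 1 - D := by linarith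
  have hdR1 : (1 : ℝ) ≤ d := by exact_mod_cast hd1
  have hKR : (3 : ℝ) * d ^ 2 + D ≤ (k : ℝ) + 2 := by exact_mod_cast hcond
  have hD0 : (0 : ℝ) ≤ D := by positivity
  obtain ⟨hc0, hc'0, hkey⟩ := consts2 ((k : ℝ) + 1) d D hdR1 hD0 (by linarith)
  refine main_core G k hn u v huv d _ _ hc0 hc'0 hu hv (by nlinarith) hkey ?_ ?_
  · intro B hB N hNB hN hsub
    have hdeg : ∀ z ∈ N, z ≠ h → (nb G z).card ≤ D := by
      intro z hz hzh
      refine hD z ?_ hzh
      rcases hsub with hs | hs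
      · exact Or.inl ((mem_nb G).1 (hs hz))
      · exact Or.inr ((mem_nb G).1 (hs hz))
    have h1 := av_le2 G B N h hNB k D hB hDk hdeg
    have h2 := av_ge G B (k + 1) (by omega) N
    push_cast at h2
    have hNR : (N.card : ℝ) ≤ d := by exact_mod_cast hN
    have hN0 : (0 : ℝ) ≤ N.card := by positivity
    have h3 : (N.card : ℝ) * ((N.card : ℝ) - 1) ≤ d * ((d : ℝ) - 1) := by nlinarith
    have h4 : (N.card : ℝ) * ((N.card : ℝ) - 1) / (2 * ((k : ℝ) + 1 - D))
        ≤ d * ((d : ℝ) - 1) / (2 * ((k : ℝ) + 1 - D)) :=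
      div_le_div_of_nonneg_right h3 (by positivity)
    linarith
  · intro B hB N hNB hN hsub
    have hdeg : ∀ z ∈ N, z ≠ h → (nb G z).card ≤ D := by
      intro z hz hzh
      refine hD z ?_ hzh
      rcases Finset.mem_union.1 (hsub hz) with hs | hs
      · exact Or.inl ((mem_nb G).1 hs)
      · exact Or.inr ((mem_nb G).1 hs)
    have h1 := av_le2 G B N h hNB (k + 1) D (by omega) (by omega) hdeg
    have h2 := av_ge G B k hB N
    push_cast at h1
    have hNR : (N.card : ℝ) ≤ 2 * (d : ℝ) - 2 := by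
      have h' : N.card + 2 ≤ 2 * d := by omega
      have h'' : (N.card : ℝ) + 2 ≤ 2 * (d : ℝ) := by exact_mod_cast h'
      linarith
    have hN0 : (0 : ℝ) ≤ N.card := by positivity
    have h3 : (N.card : ℝ) * ((N.card : ℝ) - 1) ≤ (2 * (d : ℝ) - 2) * (2 * (d : ℝ) - 2) := by
      nlinarith
    have h5 : (0 : ℝ) ≤ (2 * (d : ℝ) - 2) * (2 * (d : ℝ) - 2) := mul_self_nonneg _
    have h4 : (N.card : ℝ) * ((N.card : ℝ) - 1) / (2 * ((k : ℝ) + 1 + 1 - D))
        ≤ (2 * (d : ℝ) - 2) * (2 * (d : ℝ) - 2) / (2 * ((k : ℝ) + 1 - D)) := by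
      calc (N.card : ℝ) * ((N.card : ℝ) - 1) / (2 * ((k : ℝ) + 1 + 1 - D))
          ≤ (2 * (d : ℝ) - 2) * (2 * (d : ℝ) - 2) / (2 * ((k : ℝ) + 1 + 1 - D)) :=
            div_le_div_of_nonneg_right h3 (by linarith)
        _ ≤ _ := div_le_div_of_nonneg_left h5 (by linarith) (by linarith)
    linarith

end

end Pool.Agent.H6R3.BW
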