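import Mathlib
import Pool.Agent.H6R3.BW.Final

set_option autoImplicit false

open Finset Polynomial

namespace Pool.Agent.H6R3.BW

open Pool.Agent.H331R2.ChromLC

noncomputable section

open Classical

variable {V : Type*} [Fintype V] (G : SimpleGraph V)

/-- relative increments of the expected number of available colours at a vertex are at most `s` -/
def Rel (k : ℕ) (s : ℝ) : Prop :=
  ∀ B : Finset V, B.card ≤ k + 1 → ∀ z ∈ B,
    av G (B.erase z) (nb G z) (k + 1) - av G (B.erase z) (nb G z) k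
      ≤ s * av G (B.erase z) (nb G z) k

lemma real_step3 (α α' β β' s : ℝ) (hα : 0 ≤ α) (hαβ : α ≤ β) (hαα : α ≤ α')
    (hβ : 0 < β) (hββ : β ≤ β') (hd : β' - β ≤ s * β) :
    -s ≤ α' / β' - α / β := by
  have hβ0 : 0 < β' := hβ.trans_le hββ
  have h1 : α / β' ≤ α' / β' := div_le_div_of_nonneg_right hαα hβ0.le
  have h2 : α / β - α / β' ≤ (β' - β) / β' := by
    rw [div_sub_div _ _ hβ.ne' hβ0.ne', div_le_div_iff₀ (mul_pos hβ hβ0) hβ0]
    have : (α * β' - β * α) * β' = α * ((β' - β) * β') := by ring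
    rw [this]
    have h3 : (β' - β) * (β * β') = β * ((β' - β) * β') := by ring
    rw [h3]
    exact mul_le_mul_of_nonneg_right hαβ (mul_nonneg (by linarith) hβ0.le)
  have h3 : (β' - β) / β' ≤ (β' - β) / β :=
    div_le_div_of_nonneg_left (by linarith) hβ hββ
  have h4 : (β' - β) / β ≤ s := by rw [div_le_iff₀ hβ]; exact hd
  linarith

lemma rel_step (k : ℕ) (s : ℝ) (hs : 0 ≤ s) (hR : Rel G k s) (B : Finset V)
    (hB : B.card ≤ k + 1) (N : Finset V) (z : V) (hzN : z ∉ N) :
    av G B (insert z N) (k + 1) - av G B (insert z N) k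
      ≤ av G B N (k + 1) - av G B N k + s := by
  by_cases hz : z ∈ B
  · rw [av_rec G B N z hz hzN k hB, av_rec G B N z hz hzN (k + 1) (by omega)]
    have hlt := card_erase_lt B z hz
    have hcard : (B.erase z).card < k + 1 := by omega
    have hstep := real_step3 (av G (B.erase z) (N ∪ nb G z) k)
      (av G (B.erase z) (N ∪ nb G z) (k + 1)) (av G (B.erase z) (nb G z) k)
      (av G (B.erase z) (nb G z) (k + 1)) s
      (av_nonneg G _ _ _) (av_anti G _ Finset.subset_union_right k)
      (av_mono G _ _ z (Finset.notMem_erase z B) k hcard)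
      (av_nb_pos G B z hz k hB)
      (av_mono G _ _ z (Finset.notMem_erase z B) k hcard)
      (hR B hB z hz)
    linarith
  · rw [av_insert_notMem G B N z hz, av_insert_notMem G B N z hz]
    linarith

lemma rel_union (k : ℕ) (s : ℝ) (hs : 0 ≤ s) (hR : Rel G k s) (B : Finset V)
    (hB : B.card ≤ k + 1) (N T : Finset V) :
    av G B (T ∪ N) (k + 1) - av G B (T ∪ N) k
      ≤ av G B N (k + 1) - av G B N k + (T.card : ℝ) * s := by
  induction T using Finset.induction_on with
  | empty => simp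
  | insert y T hyT ih =>
    rw [Finset.card_insert_of_notMem hyT, Finset.insert_union]
    push_cast
    by_cases hy : y ∈ T ∪ N
    · rw [Finset.insert_eq_of_mem hy]; linarith
    · have := rel_step G k s hs hR B hB (T ∪ N) y hy
      linarith

lemma rel_upper (k : ℕ) (s : ℝ) (hs : 0 ≤ s) (hR : Rel G k s) (B : Finset V)
    (hB : B.card ≤ k + 1) (N : Finset V) :
    av G B N (k + 1) - av G B N k ≤ 1 + (N.card : ℝ) * s := by
  have h := rel_union G k s hs hR B hB ∅ N
  rw [Finset.union_empty, av_empty G B k hB, av_empty G B (k + 1) (by omega)] at h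
  push_cast at h
  linarith

lemma real_step4 (α α' β β' L M : ℝ) (hα' : 0 ≤ α')
    (hβ : 0 < β) (hββ : β ≤ β') (hL : 0 < L) (hβ1 : L ≤ β)
    (hαα : α ≤ α') (hd : α' - α ≤ M) :
    α' / β' - α / β ≤ M / L := by
  have h1 : α' / β' ≤ α' / β := div_le_div_of_nonneg_left hα' hβ hββ
  have h2 : α' / β - α / β = (α' - α) / β := by rw [sub_div]
  have h3 : (α' - α) / β ≤ M / L := by
    calc (α' - α) / β ≤ (α' - α) / L :=
          div_le_div_of_nonneg_left (by linarith) hL hβ1
      _ ≤ _ := div_le_div_of_nonneg_right hd hL.le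
  linarith

lemma rel_lower (k D d : ℕ) (s : ℝ) (hs : 0 ≤ s) (hR : Rel G k s)
    (hD : ∀ z, (nb G z).card ≤ D) (hk : D < k + 1)
    (B : Finset V) (hB : B.card ≤ k + 1) (N : Finset V) (hN : N.card ≤ d) :
      1 - (N.card : ℝ) * ((1 + ((d : ℝ) + D) * s) / ((k : ℝ) + 1 - D))
        ≤ av G B N (k + 1) - av G B N k := by
  have hkR : (D : ℝ) < (k : ℝ) + 1 := by exact_mod_cast hk
  have hpos' : 0 < (k : ℝ) + 1 - D := by linarith
  have hd0 : (0 : ℝ) ≤ d := by positivity
  have hD0 : (0 : ℝ) ≤ D := by positivity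
  induction N using Finset.induction_on with
  | empty =>
    rw [av_empty G B k hB, av_empty G B (k + 1) (by omega)]
    push_cast
    simp
  | insert z N hzN ihN =>
    rw [Finset.card_insert_of_notMem hzN] at hN ⊢
    have ih := ihN (by omega)
    push_cast
    set lam := (1 + ((d : ℝ) + D) * s) / ((k : ℝ) + 1 - D) with hlam
    have hlam0 : 0 ≤ lam := by
      rw [hlam]; apply div_nonneg
      · positivity
      · linarith
    by_cases hz : z ∈ B
    · rw [av_rec G B N z hz hzN k hB, av_rec G B N z hz hzN (k + 1) (by omega)]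
      have hlt := card_erase_lt B z hz
      have hcard : (B.erase z).card < k + 1 := by omega
      have hstep := real_step4 (av G (B.erase z) (N ∪ nb G z) k)
        (av G (B.erase z) (N ∪ nb G z) (k + 1)) (av G (B.erase z) (nb G z) k)
        (av G (B.erase z) (nb G z) (k + 1)) ((k : ℝ) + 1 - D) (1 + ((d : ℝ) + D) * s)
        (av_nonneg G _ _ _) (av_nb_pos G B z hz k hB)
        (av_mono G _ _ z (Finset.notMem_erase z B) k hcard)
        hpos'
        (by
          have h1 := av_ge G (B.erase z) k (by omega) (nb G z)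
          have h2 : ((nb G z).card : ℝ) ≤ D := by exact_mod_cast hD z
          linarith)
        (av_mono G _ _ z (Finset.notMem_erase z B) k hcard)
        (by
          have h1 := rel_upper G k s hs hR (B.erase z) (by omega) (N ∪ nb G z)
          have h2 : ((N ∪ nb G z).card : ℝ) ≤ (d : ℝ) + D := by
            have := Finset.card_union_le N (nb G z)
            have h3 := hD z
            have h4 : (N ∪ nb G z).card ≤ d + D := by omega
            exact_mod_cast h4
          have h3 := mul_le_mul_of_nonneg_right h2 hs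
          linarith)
      rw [← hlam] at hstep
      linarith
    · rw [av_insert_notMem G B N z hz, av_insert_notMem G B N z hz]
      linarith

/-- final numerical step with one endpoint of small degree -/
lemma one_core (K D m s c A0 A1 B0 B1 α0 α1 : ℝ) (hc0 : 0 ≤ c) (hs : 0 ≤ s) (hm : 0 ≤ m)
    (hKDm : 0 ≤ K - D - m)
    (hkey : 2 * (K * (m * s)) ≤ c * (K - D - m))
    (hA0 : 0 ≤ A0) (hA0' : A0 ≤ K) (hB0 : K - D ≤ B0)
    (hA1 : c ≤ A1 - A0) (hB1 : 0 ≤ B1 - B0) (hB1' : B1 - B0 ≤ s * B0)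
    (hα1 : α1 - α0 ≤ B1 - B0 + m * s) (hα0 : B0 - m ≤ α0) :
    A0 * B0 * α1 ≤ α0 * (A1 * B1) := by
  have hB00 : 0 ≤ B0 := by linarith
  have hα00 : 0 ≤ α0 := by linarith
  set β := B1 - B0 with hβ
  have eB1 : B1 = B0 + β := by rw [hβ]; ring
  have hA : A0 + c ≤ A1 := by linarith
  -- left side
  have l1 : A0 * B0 * α1 ≤ A0 * B0 * (α0 + β + m * s) :=
    mul_le_mul_of_nonneg_left (by linarith) (mul_nonneg hA0 hB00)
  -- right side
  have r1 : α0 * ((A0 + c) * (B0 + β)) ≤ α0 * (A1 * B1) := by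
    rw [eB1]
    exact mul_le_mul_of_nonneg_left
      (mul_le_mul_of_nonneg_right hA (by linarith)) hα00
  -- A0 β (B0 - α0) ≤ K m β ≤ K m s B0
  have t1 : A0 * β * (B0 - α0) ≤ K * (m * s) * B0 := by
    have a1 : A0 * β * (B0 - α0) ≤ A0 * β * m :=
      mul_le_mul_of_nonneg_left (by linarith) (mul_nonneg hA0 hB1)
    have a2 : A0 * β * m ≤ K * β * m :=
      mul_le_mul_of_nonneg_right (mul_le_mul_of_nonneg_right hA0' hB1) hm
    have a3 : K * β * m ≤ K * (s * B0) * m :=
      mul_le_mul_of_nonneg_right (mul_le_mul_of_nonneg_left hB1' (by linarith)) hm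
    have a4 : K * (s * B0) * m = K * (m * s) * B0 := by ring
    linarith
  have t2 : A0 * B0 * (m * s) ≤ K * (m * s) * B0 := by
    have a1 : A0 * (B0 * (m * s)) ≤ K * (B0 * (m * s)) :=
      mul_le_mul_of_nonneg_right hA0' (mul_nonneg hB00 (mul_nonneg hm hs))
    nlinarith
  have t3 : c * (K - D - m) * B0 ≤ c * α0 * B0 :=
    mul_le_mul_of_nonneg_right (mul_le_mul_of_nonneg_left (by linarith) hc0) hB00
  have t4 : 2 * (K * (m * s)) * B0 ≤ c * (K - D - m) * B0 :=
    mul_le_mul_of_nonneg_right hkey hB00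
  have t5 : 0 ≤ α0 * c * β := mul_nonneg (mul_nonneg hα00 hc0) hB1
  nlinarith

/-- One endpoint of small degree, abstract form. -/
theorem main_one (k : ℕ) (hn : Fintype.card V ≤ k + 2) (u v : V) (huv : G.Adj u v)
    (D d : ℕ) (s : ℝ) (hs : 0 ≤ s) (hR : Rel G k s)
    (hD : ∀ z, (nb G z).card ≤ D) (hk : D < k + 1) (hu : (nb G u).card ≤ d)
    (hc0 : 0 ≤ 1 - (d : ℝ) * ((1 + ((d : ℝ) + D) * s) / ((k : ℝ) + 1 - D)))
    (hKDm : 0 ≤ (k : ℝ) + 1 - D - ((d : ℝ) - 1))
    (hkey : 2 * (((k : ℝ) + 1) * (((d : ℝ) - 1) * s))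
      ≤ (1 - (d : ℝ) * ((1 + ((d : ℝ) + D) * s) / ((k : ℝ) + 1 - D)))
        * ((k : ℝ) + 1 - D - ((d : ℝ) - 1))) :
    p G Finset.univ (k + 1) * p (G.deleteEdges {s(u, v)}) Finset.univ (k + 2)
      ≤ p (G.deleteEdges {s(u, v)}) Finset.univ (k + 1) * p G Finset.univ (k + 2) := by
  set G' := G.deleteEdges {s(u, v)} with hG'
  have hne : u ≠ v := huv.ne
  set Bu := Finset.univ.erase u with hBu
  set H := Bu.erase v with hH
  have huBu : u ∉ Bu := Finset.notMem_erase u _
  have hvBu : v ∈ Bu := by simp [hBu, hne.symm]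
  have huH : u ∉ H := by simp [hH, hBu]
  have hvH : v ∉ H := Finset.notMem_erase v _
  have hcardBu : Bu.card ≤ k + 1 := by
    have : Bu.card < (Finset.univ : Finset V).card :=
      Finset.card_erase_lt_of_mem (Finset.mem_univ u)
    rw [Finset.card_univ] at this
    omega
  have hcardH : H.card < k + 1 := by
    have : H.card < Bu.card := Finset.card_erase_lt_of_mem hvBu
    omega
  have hins : insert u Bu = (Finset.univ : Finset V) := Finset.insert_erase (Finset.mem_univ u)
  have hins' : insert v H = Bu := Finset.insert_erase hvBu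
  set Nu := (nb G u).erase v with hNu
  have hvNu : v ∉ Nu := Finset.notMem_erase v _
  have hinsN : insert v Nu = nb G u := Finset.insert_erase ((mem_nb G).2 huv)
  -- formulas
  have fP : ∀ j, p G Finset.univ (j + 1) = Q G Bu (nb G u) j := by
    intro j
    rw [← hins]; exact Q_insert G Bu u huBu j
  have fB : ∀ j, p G Bu (j + 1) = Q G H (nb G v) j := by
    intro j
    rw [← hins', Q_insert G H v hvH j]
  have fP' : ∀ j, p G' Finset.univ (j + 1) = Q G Bu Nu j := by
    intro j
    rw [← hins, Q_insert G' Bu u huBu j]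
    have hloc : ∀ a ∈ Bu, ∀ b ∈ Bu, (G.Adj a b ↔ G'.Adj a b) := by
      intro a ha b hb
      have hau : a ≠ u := fun h => huBu (h ▸ ha)
      have hbu : b ≠ u := fun h => huBu (h ▸ hb)
      rw [hG', SimpleGraph.deleteEdges_adj]
      simp [hau, hbu]
    rw [← Q_local G G' Bu _ hloc j]
    apply Q_congr
    intro s _
    rw [mem_nb, hG', SimpleGraph.deleteEdges_adj, hNu, Finset.mem_erase, mem_nb]
    simp only [Set.mem_singleton_iff, Sym2.eq_iff]
    constructor
    · rintro ⟨h1, h2⟩
      refine ⟨?_, h1⟩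
      rintro rfl
      exact h2 (by simp)
    · rintro ⟨h1, h2⟩
      refine ⟨h2, ?_⟩
      rintro (⟨_, h3⟩ | ⟨h3, h4⟩)
      · exact h1 h3
      · exact hne h3
  have fN : ∀ j, p G Finset.univ (j + 1)
      = p G' Finset.univ (j + 1) - Q G H (Nu ∪ nb G v) j := by
    intro j
    rw [fP, fP', ← hinsN, Q_rec G Bu Nu v hvBu hvNu j]
  -- values
  set h0 := p G H (k + 1) with hh0
  set h1 := p G H (k + 2) with hh1
  have h0pos : 0 < h0 := p_pos G H (k + 1) (by omega)
  have h1pos : 0 < h1 := p_pos G H (k + 2) (by omega)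
  set A0 := av G Bu (nb G u) k with hA0
  set A1 := av G Bu (nb G u) (k + 1) with hA1
  set B0 := av G H (nb G v) k with hB0
  set B1 := av G H (nb G v) (k + 1) with hB1
  set α0 := av G H (Nu ∪ nb G v) k with hα0
  set α1 := av G H (Nu ∪ nb G v) (k + 1) with hα1
  have eP0 : p G Finset.univ (k + 1) = h0 * B0 * A0 := by
    rw [fP k, p_eq_av G Bu _ k hcardBu, fB k, p_eq_av G H _ k (by omega)]
  have eP1 : p G Finset.univ (k + 2) = h1 * B1 * A1 := by
    rw [fP (k + 1), p_eq_av G Bu _ (k + 1) (by omega), fB (k + 1),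
      p_eq_av G H _ (k + 1) (by omega)]
  have eN0 : p G' Finset.univ (k + 1) = h0 * B0 * A0 + h0 * α0 := by
    have := fN k
    rw [p_eq_av G H _ k (by omega)] at this
    rw [← eP0]; linarith
  have eN1 : p G' Finset.univ (k + 2) = h1 * B1 * A1 + h1 * α1 := by
    have := fN (k + 1)
    rw [p_eq_av G H _ (k + 1) (by omega)] at this
    rw [← eP1]
    have e : h1 = p G H (k + 1 + 1) := rfl
    rw [e]
    linarith
  have hNuc : Nu.card + 1 = (nb G u).card := by
    rw [hNu]; exact Finset.card_erase_add_one ((mem_nb G).2 huv)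
  have hNuR : (Nu.card : ℝ) ≤ (d : ℝ) - 1 := by
    have h' : Nu.card + 1 ≤ d := by omega
    have h'' : (Nu.card : ℝ) + 1 ≤ (d : ℝ) := by exact_mod_cast h'
    linarith
  have hm0 : 0 ≤ (d : ℝ) - 1 := by
    have : (0 : ℝ) ≤ Nu.card := by positivity
    linarith
  have hkR : (D : ℝ) < (k : ℝ) + 1 := by exact_mod_cast hk
  have hlam0 : 0 ≤ (1 + ((d : ℝ) + D) * s) / ((k : ℝ) + 1 - D) := by
    apply div_nonneg
    · positivity
    · linarith
  have hRv : B1 - B0 ≤ s * B0 := by
    have h := hR Bu hcardBu v hvBu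
    exact h
  have hBmono : 0 ≤ B1 - B0 := by
    have h := av_mono G H (nb G v) v hvH k hcardH
    linarith
  have hfin := one_core ((k : ℝ) + 1) D ((d : ℝ) - 1) s _ A0 A1 B0 B1 α0 α1 hc0 hs hm0 hKDm
    hkey (av_nonneg G _ _ _) (av_le G _ _ k hcardBu)
    (by
      have h1 := av_ge G H k (by omega) (nb G v)
      have h2 : ((nb G v).card : ℝ) ≤ D := by exact_mod_cast hD v
      linarith)
    (by
      have h := rel_lower G k D d s hs hR hD hk Bu hcardBu (nb G u) hu
      have h2 : ((nb G u).card : ℝ) ≤ d := by exact_mod_cast hu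
      have h3 := mul_le_mul_of_nonneg_right h2 hlam0
      linarith)
    hBmono hRv
    (by
      have h := rel_union G k s hs hR H (by omega) (nb G v) Nu
      have h3 := mul_le_mul_of_nonneg_right hNuR hs
      linarith)
    (by
      -- av of a union
      have key : ∀ T : Finset V, av G H (nb G v) k - (T.card : ℝ) ≤ av G H (T ∪ nb G v) k := by
        intro T
        induction T using Finset.induction_on with
        | empty => simp
        | insert y T hyT ih =>
          rw [Finset.card_insert_of_notMem hyT, Finset.insert_union]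
          push_cast
          by_cases hy : y ∈ T ∪ nb G v
          · rw [Finset.insert_eq_of_mem hy]; linarith
          · by_cases hyB : y ∈ H
            · rw [av_rec G H _ y hyB hy k (by omega)]
              have hpos := av_nb_pos G H y hyB k (by omega)
              have : av G (H.erase y) (T ∪ nb G v ∪ nb G y) k
                  / av G (H.erase y) (nb G y) k ≤ 1 := by
                rw [div_le_one hpos]
                exact av_anti G _ Finset.subset_union_right k
              linarith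
            · rw [av_insert_notMem G _ _ y hyB]; linarith
      have h := key Nu
      linarith)
  rw [eP0, eP1, eN0, eN1]
  have hh : 0 ≤ h0 * h1 := by positivity
  have := mul_le_mul_of_nonneg_left hfin hh
  nlinarith [this]

lemma rel_half (k D : ℕ) (hD : ∀ z, (nb G z).card ≤ D) (hk : 2 * D < k + 1) :
    Rel G k (1 / ((k : ℝ) + 1 - 2 * D)) := by
  intro B hB z hz
  have hkR : 2 * (D : ℝ) < (k : ℝ) + 1 := by exact_mod_cast hk
  have hpos : 0 < (k : ℝ) + 1 - 2 * D := by linarith
  have hlt := card_erase_lt B z hz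
  have h1 := av_upper G D k hD hk (B.erase z).card (B.erase z) le_rfl (by omega) (nb G z)
  have h2 : ((nb G z).card : ℝ) ≤ D := by exact_mod_cast hD z
  have h3 : ((nb G z).card : ℝ) / ((k : ℝ) + 1 - 2 * D)
      ≤ (D : ℝ) / ((k : ℝ) + 1 - 2 * D) := div_le_div_of_nonneg_right h2 hpos.le
  have h4 := av_ge G (B.erase z) k (by omega) (nb G z)
  have h5 : (k : ℝ) + 1 - D ≤ av G (B.erase z) (nb G z) k := by linarith
  have e : 1 + (D : ℝ) / ((k : ℝ) + 1 - 2 * D)
      = 1 / ((k : ℝ) + 1 - 2 * D) * ((k : ℝ) + 1 - D) := by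
    rw [one_div, ← div_eq_inv_mul, eq_div_iff hpos.ne', add_mul, div_mul_cancel₀ _ hpos.ne']
    ring
  have h6 : 1 / ((k : ℝ) + 1 - 2 * D) * ((k : ℝ) + 1 - D)
      ≤ 1 / ((k : ℝ) + 1 - 2 * D) * av G (B.erase z) (nb G z) k :=
    mul_le_mul_of_nonneg_left h5 (by positivity)
  linarith

lemma num_one (K d D : ℝ) (hd : 1 ≤ d) (hD : d ≤ D) (hK : 5 * d + 2 * D - 1 ≤ K) :
    0 ≤ 1 - d * ((1 + (d + D) * (1 / (K - 2 * D))) / (K - D)) ∧
    0 ≤ K - D - (d - 1) ∧
    2 * (K * ((d - 1) * (1 / (K - 2 * D))))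
      ≤ (1 - d * ((1 + (d + D) * (1 / (K - 2 * D))) / (K - D))) * (K - D - (d - 1)) := by
  obtain ⟨r, hr⟩ : ∃ r, r = d - 1 := ⟨_, rfl⟩
  obtain ⟨s, hs⟩ : ∃ s, s = D - d := ⟨_, rfl⟩
  obtain ⟨t, ht⟩ : ∃ t, t = K - (5 * d + 2 * D - 1) := ⟨_, rfl⟩
  have hr0 : 0 ≤ r := by linarith
  have hs0 : 0 ≤ s := by linarith
  have ht0 : 0 ≤ t := by linarith
  have e1 : d = r + 1 := by linarith
  have e2 : D = r + 1 + s := by linarith
  have e3 : K = 7 * r + 2 * s + t + 6 := by linarith
  have hx : 0 < K - 2 * D := by linarith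
  have hy : 0 < K - D := by linarith
  have hxy : 0 < (K - 2 * D) * (K - D) := mul_pos hx hy
  set c := 1 - d * ((1 + (d + D) * (1 / (K - 2 * D))) / (K - D)) with hc
  have ec : c * ((K - 2 * D) * (K - D)) = (K - 2 * D) * (K - D) - d * (K - D + d) := by
    have e4 : (1 + (d + D) * (1 / (K - 2 * D))) / (K - D)
        = (K - D + d) / ((K - 2 * D) * (K - D)) := by
      rw [mul_one_div, eq_div_iff hxy.ne', mul_comm (K - 2 * D) (K - D), ← mul_assoc,
        div_mul_cancel₀ _ hy.ne', add_mul, div_mul_cancel₀ _ hx.ne']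
      ring
    rw [hc, e4, sub_mul, one_mul, mul_assoc, div_mul_cancel₀ _ hxy.ne']
  have hc0 : 0 ≤ c := by
    have : 0 ≤ c * ((K - 2 * D) * (K - D)) := by
      rw [ec]
      have : (K - 2 * D) * (K - D) - d * (K - D + d)
          = 23 * r ^ 2 + 4 * r * s + 10 * r * t + 36 * r + 1 * s * t + 3 * s + 1 * t ^ 2
            + 8 * t + 14 := by
        rw [e1, e2, e3]; ring
      rw [this]; positivity
    exact nonneg_of_mul_nonneg_left this hxy
  refine ⟨hc0, by linarith, ?_⟩
  have h3 : (2 * (K * ((d - 1) * (1 / (K - 2 * D))))) * ((K - 2 * D) * (K - D))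
      ≤ (c * (K - D - (d - 1))) * ((K - 2 * D) * (K - D)) := by
    have a1 : (2 * (K * ((d - 1) * (1 / (K - 2 * D))))) * ((K - 2 * D) * (K - D))
        = 2 * (d - 1) * K * (K - D) * ((1 / (K - 2 * D)) * (K - 2 * D)) := by ring
    have a2 : (c * (K - D - (d - 1))) * ((K - 2 * D) * (K - D))
        = ((K - 2 * D) * (K - D) - d * (K - D + d)) * (K - D - (d - 1)) := by
      rw [← ec]; ring
    rw [a1, a2, one_div, inv_mul_cancel₀ hx.ne', mul_one, ← sub_nonneg]
    have : ((K - 2 * D) * (K - D) - d * (K - D + d)) * (K - D - (d - 1))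
        - 2 * (d - 1) * K * (K - D)
        = 31 * r ^ 3 + 5 * r ^ 2 * s + 47 * r ^ 2 * t + 153 * r ^ 2 + 13 * r * s * t
          + 39 * r * s + 13 * r * t ^ 2 + 104 * r * t + 190 * r + 1 * s ^ 2 * t + 3 * s ^ 2
          + 2 * s * t ^ 2 + 16 * s * t + 29 * s + 1 * t ^ 3 + 13 * t ^ 2 + 54 * t + 70 := by
      rw [e1, e2, e3]; ring
    rw [this]; positivity
  exact le_of_mul_le_mul_right h3 hxy

/-- Case (i): `5 deg u + 2 Δ ≤ q`, every edge at `u`. -/
theorem main_half (k : ℕ) (hn : Fintype.card V ≤ k + 2) (u v : V) (huv : G.Adj u v)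
    (D : ℕ) (hD : ∀ z, (nb G z).card ≤ D) (hcond : 5 * (nb G u).card + 2 * D ≤ k + 2) :
    p G Finset.univ (k + 1) * p (G.deleteEdges {s(u, v)}) Finset.univ (k + 2)
      ≤ p (G.deleteEdges {s(u, v)}) Finset.univ (k + 1) * p G Finset.univ (k + 2) := by
  set d := (nb G u).card with hd
  have hd1 : 1 ≤ d := Finset.card_pos.2 ⟨v, (mem_nb G).2 huv⟩
  have hdD : d ≤ D := hD u
  have hk2 : 2 * D < k + 1 := by omega
  have hkR : 2 * (D : ℝ) < (k : ℝ) + 1 := by exact_mod_cast hk2
  have hpos : 0 < (k : ℝ) + 1 - 2 * D := by linarith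
  have hdR1 : (1 : ℝ) ≤ d := by exact_mod_cast hd1
  have hKR : (5 : ℝ) * d + 2 * D ≤ (k : ℝ) + 2 := by exact_mod_cast hcond
  obtain ⟨h1, h2, h3⟩ := num_one ((k : ℝ) + 1) d D hdR1 (by exact_mod_cast hdD) (by linarith)
  exact main_one G k hn u v huv D d _ (by positivity) (rel_half G k D hD hk2) hD (by omega)
    le_rfl h1 h2 h3

end

end Pool.Agent.H6R3.BW
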