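import Mathlib
import Pool.Agent.H6R3.BW.One

set_option autoImplicit false

open Finset Polynomial

namespace Pool.Agent.H6R3.BW

open Pool.Agent.H331R2.ChromLC

noncomputable section

open Classical

variable {V : Type*} [Fintype V] (G : SimpleGraph V)

lemma p_empty (k : ℕ) : p G ∅ k = 1 := by
  unfold p; rw [P_empty]; simp

/-- second recursion at naturals -/
lemma p_succ' (B : Finset V) (x : V) (hx : x ∈ B) (k : ℕ) :
    p G B (k + 1) = ((k : ℝ) + 1) * ∑ S ∈ (J G B).filter (fun S => x ∈ S), p G (B \ S) k := by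
  unfold p
  push_cast
  exact eval_succ' G B x hx (k : ℝ)

lemma p_succ (B : Finset V) (k : ℕ) :
    p G B (k + 1) = ∑ S ∈ J G B, p G (B \ S) k := by
  unfold p
  push_cast
  exact eval_succ G B (k : ℝ)

/-- `E[U^2] ≥ (E U)^2` in the form `U_{k+2} ≤ U_{k+1} + 1`. -/
lemma turan (B : Finset V) : ∀ k : ℕ, B.card ≤ k →
    ((k : ℝ) + 2) * p G B (k + 1) ^ 2
      ≤ p G B (k + 2) * (((k : ℝ) + 1) * p G B k + p G B (k + 1)) := by
  induction hn : B.card using Nat.strong_induction_on generalizing B with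
  | _ n ih =>
    intro k hk
    rcases B.eq_empty_or_nonempty with rfl | hB
    · rw [p_empty, p_empty, p_empty]; linarith
    · obtain ⟨x, hx⟩ := hB
      have hcard : 1 ≤ B.card := Finset.card_pos.2 ⟨x, hx⟩
      obtain ⟨j, rfl⟩ : ∃ j, k = j + 1 := ⟨k - 1, by omega⟩
      set I := (J G B).filter (fun S => x ∈ S) with hI
      have e2 := p_succ' G B x hx (j + 2)
      have e1 := p_succ' G B x hx (j + 1)
      have e0 := p_succ' G B x hx j
      have hle : ∀ S ∈ I, (B \ S).card < B.card ∧ (B \ S).card ≤ j := by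
        intro S hS
        rw [hI, Finset.mem_filter] at hS
        have : (B \ S).card < B.card := sdiff_card_lt hx hS.2
        exact ⟨this, by omega⟩
      -- pointwise inequality
      have hpt : ∀ S ∈ I, ((j : ℝ) + 2) * p G (B \ S) (j + 1) ^ 2
          ≤ p G (B \ S) (j + 2) * (((j : ℝ) + 1) * p G (B \ S) j + p G (B \ S) (j + 1)) := by
        intro S hS
        exact ih (B \ S).card (by rw [← hn]; exact (hle S hS).1) (B \ S) rfl j (hle S hS).2
      -- Cauchy-Schwarz
      set f : Finset V → ℝ := fun S => p G (B \ S) (j + 2) with hf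
      set g : Finset V → ℝ := fun S => ((j : ℝ) + 1) * p G (B \ S) j + p G (B \ S) (j + 1) with hg
      have hf0 : ∀ S ∈ I, 0 ≤ f S := fun S _ => p_nonneg G _ _
      have hg0 : ∀ S ∈ I, 0 ≤ g S := fun S _ => by
        have h1 := p_nonneg G (B \ S) j
        have h2 := p_nonneg G (B \ S) (j + 1)
        simp only [hg]; positivity
      have hCS : (∑ S ∈ I, Real.sqrt (f S * g S)) ^ 2 ≤ (∑ S ∈ I, f S) * ∑ S ∈ I, g S := by
        apply Finset.sum_sq_le_sum_mul_sum_of_sq_eq_mul I hf0 hg0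
        intro S hS
        exact Real.sq_sqrt (mul_nonneg (hf0 S hS) (hg0 S hS))
      have hsq : Real.sqrt ((j : ℝ) + 2) * ∑ S ∈ I, p G (B \ S) (j + 1)
          ≤ ∑ S ∈ I, Real.sqrt (f S * g S) := by
        rw [Finset.mul_sum]
        refine Finset.sum_le_sum fun S hS => ?_
        apply Real.le_sqrt_of_sq_le
        rw [mul_pow, Real.sq_sqrt (by positivity)]
        exact hpt S hS
      have hsum0 : 0 ≤ ∑ S ∈ I, p G (B \ S) (j + 1) :=
        Finset.sum_nonneg fun S _ => p_nonneg G _ _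
      have hmain : ((j : ℝ) + 2) * (∑ S ∈ I, p G (B \ S) (j + 1)) ^ 2
          ≤ (∑ S ∈ I, f S) * ∑ S ∈ I, g S := by
        have h1 := pow_le_pow_left₀ (mul_nonneg (Real.sqrt_nonneg _) hsum0) hsq 2
        rw [mul_pow, Real.sq_sqrt (by positivity)] at h1
        exact h1.trans hCS
      have hgsum : ∑ S ∈ I, g S = ((j : ℝ) + 1) * ∑ S ∈ I, p G (B \ S) j
          + ∑ S ∈ I, p G (B \ S) (j + 1) := by
        simp only [hg]
        rw [Finset.sum_add_distrib, Finset.mul_sum]
      rw [hgsum] at hmain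
      push_cast at e0 e1 e2 ⊢
      have e3 : j + 1 + 2 = j + 2 + 1 := by ring
      have e4 : j + 1 + 1 = j + 1 + 1 := rfl
      rw [e3, e2, e1, e0]
      set X := ∑ S ∈ I, p G (B \ S) j with hX
      set Y := ∑ S ∈ I, p G (B \ S) (j + 1) with hY
      set Z := ∑ S ∈ I, f S with hZ
      have hj : (0 : ℝ) ≤ j := by positivity
      have hfac : 0 ≤ ((j : ℝ) + 3) * ((j : ℝ) + 2) := by positivity
      have hmul := mul_le_mul_of_nonneg_left hmain hfac
      nlinarith [hmul]

lemma chainN (B : Finset V) (k : ℕ) (hB : B.card ≤ k) (S : Finset V) (hS : S ∈ J G B) :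
    p G (B \ S) (k + 1) * p G B k ≤ p G B (k + 1) * p G (B \ S) k := by
  have hc : (B.card : ℝ) ≤ (k : ℝ) := by exact_mod_cast hB
  have := chain G B (k : ℝ) (by linarith)
    (fun B' v hv hlt => M_all G B' v hv (k : ℝ) (by
      have : (B'.card : ℝ) < (B.card : ℝ) := by exact_mod_cast hlt
      linarith)) S ((mem_J G).1 hS).1
  unfold p
  push_cast
  exact this

lemma incl_excl (B N : Finset V) (F : Finset V → ℝ) :
    ∑ S ∈ (J G B).filter (fun S => Disjoint S N), F S
      = ∑ S ∈ J G B, F S - ∑ x ∈ N, ∑ S ∈ (J G B).filter (fun S => x ∈ S), F S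
        + ∑ S ∈ J G B, F S * (((S ∩ N).card - 1 : ℕ) : ℝ) := by
  have h1 : ∑ x ∈ N, ∑ S ∈ (J G B).filter (fun S => x ∈ S), F S
      = ∑ S ∈ J G B, F S * ((S ∩ N).card : ℝ) := by
    have : ∀ x ∈ N, ∑ S ∈ (J G B).filter (fun S => x ∈ S), F S
        = ∑ S ∈ J G B, if x ∈ S then F S else 0 := by
      intro x _
      rw [Finset.sum_filter]
    rw [Finset.sum_congr rfl this, Finset.sum_comm]
    refine Finset.sum_congr rfl fun S _ => ?_
    rw [← Finset.sum_filter, Finset.sum_const, nsmul_eq_mul, mul_comm]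
    congr 2
    congr 1
    ext a
    simp only [Finset.mem_filter, Finset.mem_inter]
    tauto
  rw [h1, Finset.sum_filter, ← Finset.sum_sub_distrib, ← Finset.sum_add_distrib]
  refine Finset.sum_congr rfl fun S _ => ?_
  by_cases h : Disjoint S N
  · rw [if_pos h]
    have : S ∩ N = ∅ := Finset.disjoint_iff_inter_eq_empty.1 h
    rw [this]; simp
  · rw [if_neg h]
    have : 1 ≤ (S ∩ N).card := by
      rw [Nat.one_le_iff_ne_zero]
      intro h0
      exact h (Finset.disjoint_iff_inter_eq_empty.2 (Finset.card_eq_zero.1 h0))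
    rw [Nat.cast_sub this]
    push_cast
    ring

/-- The increments of the expected number of available colours, through the second moment of the
number of unused colours. -/
theorem av_diff (B N : Finset V) (hNB : N ⊆ B) (k : ℕ) (hB : B.card ≤ k) :
    av G B N (k + 1) - av G B N k
      ≤ 1 + (N.card : ℝ) * (p G B (k + 1) / (((k : ℝ) + 1) * p G B k)) := by
  set w : Finset V → ℝ := fun S => p G (B \ S) k with hw
  set w' : Finset V → ℝ := fun S => p G (B \ S) (k + 1) with hw'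
  have p0 : 0 < p G B k := p_pos G B k hB
  have p1 : 0 < p G B (k + 1) := p_pos G B (k + 1) (by omega)
  have p2 : 0 < p G B (k + 2) := p_pos G B (k + 2) (by omega)
  have hK : (0 : ℝ) < (k : ℝ) + 1 := by positivity
  set c : Finset V → ℝ := fun S => (((S ∩ N).card - 1 : ℕ) : ℝ) with hc
  have hx : ∀ x ∈ N, ∑ S ∈ (J G B).filter (fun S => x ∈ S), w S = p G B (k + 1) / ((k : ℝ) + 1) := by
    intro x hx
    rw [p_succ' G B x (hNB hx) k, mul_div_cancel_left₀ _ hK.ne']
  have hx' : ∀ x ∈ N, ∑ S ∈ (J G B).filter (fun S => x ∈ S), w' S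
      = p G B (k + 2) / ((k : ℝ) + 2) := by
    intro x hx
    have h := p_succ' G B x (hNB hx) (k + 1)
    push_cast at h
    have e : (k : ℝ) + 1 + 1 = (k : ℝ) + 2 := by ring
    rw [e] at h
    have e' : p G B (k + 2) = p G B (k + 1 + 1) := rfl
    rw [e', h, mul_div_cancel_left₀ _ (by positivity)]
  have t0 := incl_excl G B N w
  have t1 := incl_excl G B N w'
  rw [Finset.sum_congr rfl hx, Finset.sum_const, nsmul_eq_mul] at t0
  rw [Finset.sum_congr rfl hx', Finset.sum_const, nsmul_eq_mul] at t1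
  have s0 : ∑ S ∈ J G B, w S = p G B (k + 1) := (p_succ G B k).symm
  have s1 : ∑ S ∈ J G B, w' S = p G B (k + 2) := (p_succ G B (k + 1)).symm
  rw [s0] at t0
  rw [s1] at t1
  set C0 := ∑ S ∈ J G B, w S * (((S ∩ N).card - 1 : ℕ) : ℝ) with hC0
  set C1 := ∑ S ∈ J G B, w' S * (((S ∩ N).card - 1 : ℕ) : ℝ) with hC1
  have a0 : av G B N k * p G B (k + 1)
      = ((k : ℝ) + 1) * (p G B (k + 1) - (N.card : ℝ) * (p G B (k + 1) / ((k : ℝ) + 1)) + C0) := by
    rw [← t0]
    unfold av Q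
    rw [div_mul_cancel₀ _ p1.ne']
  have a1 : av G B N (k + 1) * p G B (k + 2)
      = ((k : ℝ) + 2) * (p G B (k + 2) - (N.card : ℝ) * (p G B (k + 2) / ((k : ℝ) + 2)) + C1) := by
    rw [← t1]
    unfold av Q
    have e' : p G B (k + 2) = p G B (k + 1 + 1) := rfl
    rw [e', div_mul_cancel₀ _ p2.ne']
    push_cast
    ring
  -- solve
  have b0 : av G B N k = ((k : ℝ) + 1) - N.card + ((k : ℝ) + 1) * C0 / p G B (k + 1) := by
    rw [eq_comm]
    apply mul_right_cancel₀ p1.ne'
    rw [a0]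
    field_simp
  have b1 : av G B N (k + 1)
      = ((k : ℝ) + 2) - N.card + ((k : ℝ) + 2) * C1 / p G B (k + 2) := by
    rw [eq_comm]
    apply mul_right_cancel₀ p2.ne'
    rw [a1]
    field_simp
  have hC0n : 0 ≤ C0 := Finset.sum_nonneg fun S _ => mul_nonneg (p_nonneg G _ _) (Nat.cast_nonneg _)
  -- C1 p0 ≤ p1 C0
  have hC : C1 * p G B k ≤ p G B (k + 1) * C0 := by
    rw [hC0, hC1, Finset.sum_mul, Finset.mul_sum]
    refine Finset.sum_le_sum fun S hS => ?_
    have h := chainN G B k hB S hS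
    have hcn : (0 : ℝ) ≤ (((S ∩ N).card - 1 : ℕ) : ℝ) := Nat.cast_nonneg _
    have h' := mul_le_mul_of_nonneg_right h hcn
    calc w' S * (((S ∩ N).card - 1 : ℕ) : ℝ) * p G B k
        = p G (B \ S) (k + 1) * p G B k * (((S ∩ N).card - 1 : ℕ) : ℝ) := by
          simp only [hw']; ring
      _ ≤ p G B (k + 1) * p G (B \ S) k * (((S ∩ N).card - 1 : ℕ) : ℝ) := h'
      _ = p G B (k + 1) * (w S * (((S ∩ N).card - 1 : ℕ) : ℝ)) := by simp only [hw]; ring
  clear_value C0 C1
  -- EC := (k+1) C0 / p1 ≤ |N|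
  have hEC : ((k : ℝ) + 1) * C0 / p G B (k + 1) ≤ N.card := by
    have h := av_le G B N k (by omega)
    linarith
  have hEC0 : 0 ≤ ((k : ℝ) + 1) * C0 / p G B (k + 1) :=
    div_nonneg (mul_nonneg hK.le hC0n) p1.le
  set τ := p G B (k + 1) / (((k : ℝ) + 1) * p G B k) with hτ
  have hτ0 : 0 ≤ τ := div_nonneg p1.le (mul_nonneg hK.le p0.le)
  have hT := turan G B k hB
  -- (k+2) C1 / p2 ≤ (1 + τ) * ((k+1) C0 / p1)
  have hmain : ((k : ℝ) + 2) * C1 / p G B (k + 2)
      ≤ (1 + τ) * (((k : ℝ) + 1) * C0 / p G B (k + 1)) := by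
    have e : (1 + τ) * (((k : ℝ) + 1) * C0 / p G B (k + 1))
        = C0 * (((k : ℝ) + 1) * p G B k + p G B (k + 1)) / (p G B k * p G B (k + 1)) := by
      rw [hτ]
      field_simp
    rw [e, div_le_div_iff₀ p2 (mul_pos p0 p1)]
    have h0 := mul_le_mul_of_nonneg_left hC
      (show (0:ℝ) ≤ ((k : ℝ) + 2) * p G B (k + 1) from
        mul_nonneg (by positivity) p1.le)
    have h2 := mul_le_mul_of_nonneg_left hT hC0n
    calc ((k : ℝ) + 2) * C1 * (p G B k * p G B (k + 1))
        = ((k : ℝ) + 2) * p G B (k + 1) * (C1 * p G B k) := by ring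
      _ ≤ ((k : ℝ) + 2) * p G B (k + 1) * (p G B (k + 1) * C0) := h0
      _ = C0 * (((k : ℝ) + 2) * p G B (k + 1) ^ 2) := by ring
      _ ≤ C0 * (p G B (k + 2) * (((k : ℝ) + 1) * p G B k + p G B (k + 1))) := h2
      _ = C0 * (((k : ℝ) + 1) * p G B k + p G B (k + 1)) * p G B (k + 2) := by ring
  have h3 : τ * (((k : ℝ) + 1) * C0 / p G B (k + 1)) ≤ τ * N.card :=
    mul_le_mul_of_nonneg_left hEC hτ0
  rw [b0, b1]
  have h4 : (1 + τ) * (((k : ℝ) + 1) * C0 / p G B (k + 1))
      = ((k : ℝ) + 1) * C0 / p G B (k + 1) + τ * (((k : ℝ) + 1) * C0 / p G B (k + 1)) := by ring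
  rw [h4] at hmain
  have h5 : τ * (N.card : ℝ) = (N.card : ℝ) * τ := by ring
  linarith

end

end Pool.Agent.H6R3.BW
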