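import Mathlib
import Pool.Agent.H6R3.BW.Dense

set_option autoImplicit false

open Finset Polynomial

namespace Pool.Agent.H6R3.BW

open Pool.Agent.H331R2.ChromLC

noncomputable section

open Classical

variable {V : Type*} [Fintype V] (G : SimpleGraph V)

lemma p_insert_ge (A : Finset V) (z : V) (hz : z ∉ A) (k : ℕ) (hk : 1 ≤ k) (hA : A.card ≤ k) :
    ((k : ℝ) - ((nb G z ∩ A).card : ℝ)) * p G A k ≤ p G (insert z A) k := by
  obtain ⟨j, rfl⟩ : ∃ j, k = j + 1 := ⟨k - 1, by omega⟩
  have e : Q G A (nb G z) j = Q G A (nb G z ∩ A) j := by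
    apply Q_congr
    intro s hs
    simp [hs]
  rw [Q_insert G A z hz j, e, p_eq_av G A _ j hA, mul_comm]
  refine mul_le_mul_of_nonneg_left ?_ (p_nonneg G _ _)
  have h := av_ge G A j hA (nb G z ∩ A)
  push_cast
  exact h

lemma Q_erase_le (B N : Finset V) (z : V) (hz : z ∈ B) (hzN : z ∉ N) (k : ℕ) (hk : 1 ≤ k)
    (hB : B.card ≤ k + 1) :
    ((k : ℝ) + 1 - ((nb G z).card : ℝ)) * Q G (B.erase z) N k ≤ Q G B N k := by
  have hrec := Q_rec G B N z hz hzN k
  have hQ : Q G B N k = Q G B (insert z N) k + Q G (B.erase z) (N ∪ nb G z) k := by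
    rw [hrec]; ring
  rw [hQ]
  have hlt := card_erase_lt B z hz
  have hJ : (J G B).filter (fun S => Disjoint S (insert z N))
      = (J G (B.erase z)).filter (fun S => Disjoint S N) := by
    ext S
    rw [Finset.mem_filter, Finset.mem_filter, mem_J, mem_J, Finset.disjoint_insert_right,
      Finset.subset_erase]
    tauto
  have e1 : Q G B (insert z N) k = ((k : ℝ) + 1) *
      ∑ S ∈ (J G (B.erase z)).filter (fun S => Disjoint S N),
        p G (insert z ((B.erase z) \ S)) k := by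
    unfold Q
    rw [hJ]
    congr 1
    refine Finset.sum_congr rfl fun S hS => ?_
    rw [Finset.mem_filter, mem_J, Finset.subset_erase] at hS
    congr 1
    ext a
    simp only [Finset.mem_sdiff, Finset.mem_insert, Finset.mem_erase]
    constructor
    · rintro ⟨h1, h2⟩
      by_cases h : a = z
      · exact Or.inl h
      · exact Or.inr ⟨⟨h, h1⟩, h2⟩
    · rintro (h | ⟨⟨_, h1⟩, h2⟩)
      · rw [h]; exact ⟨hz, hS.1.1.2⟩
      · exact ⟨h1, h2⟩
  have e2 : Q G (B.erase z) (N ∪ nb G z) k = ((k : ℝ) + 1) *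
      ∑ S ∈ (J G (B.erase z)).filter (fun S => Disjoint S N),
        (if Disjoint S (nb G z) then p G ((B.erase z) \ S) k else 0) := by
    unfold Q
    congr 1
    rw [← Finset.sum_filter, Finset.filter_filter]
    refine Finset.sum_congr ?_ (fun _ _ => rfl)
    refine Finset.filter_congr ?_
    intro S _
    rw [Finset.disjoint_union_right]
  rw [e1, e2, ← mul_add, ← Finset.sum_add_distrib]
  unfold Q
  have hcomm : ((k : ℝ) + 1 - ((nb G z).card : ℝ)) * (((k : ℝ) + 1) *
      ∑ S ∈ (J G (B.erase z)).filter (fun S => Disjoint S N), p G ((B.erase z) \ S) k)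
      = ((k : ℝ) + 1) * ∑ S ∈ (J G (B.erase z)).filter (fun S => Disjoint S N),
        ((k : ℝ) + 1 - ((nb G z).card : ℝ)) * p G ((B.erase z) \ S) k := by
    rw [← Finset.mul_sum]; ring
  rw [hcomm]
  refine mul_le_mul_of_nonneg_left ?_ (by positivity)
  refine Finset.sum_le_sum fun S _ => ?_
  have hzA : z ∉ (B.erase z) \ S := by simp
  have hAcard : ((B.erase z) \ S).card ≤ k := by
    have := Finset.card_le_card (Finset.sdiff_subset (s := B.erase z) (t := S))
    omega
  have hp := p_nonneg G ((B.erase z) \ S) k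
  have hins := p_insert_ge G ((B.erase z) \ S) z hzA k hk hAcard
  by_cases hdis : Disjoint S (nb G z)
  · rw [if_pos hdis]
    have h1 : ((nb G z ∩ ((B.erase z) \ S)).card : ℝ) ≤ ((nb G z).card : ℝ) := by
      exact_mod_cast Finset.card_le_card Finset.inter_subset_left
    nlinarith [mul_le_mul_of_nonneg_right h1 hp]
  · rw [if_neg hdis]
    obtain ⟨y, hyS, hyN⟩ := Finset.not_disjoint_iff.1 hdis
    have h1 : (nb G z ∩ ((B.erase z) \ S)).card < (nb G z).card := by
      apply Finset.card_lt_card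
      refine ⟨Finset.inter_subset_left, fun hh => ?_⟩
      have := hh hyN
      rw [Finset.mem_inter, Finset.mem_sdiff] at this
      exact this.2.2 hyS
    have h2 : ((nb G z ∩ ((B.erase z) \ S)).card : ℝ) + 1 ≤ ((nb G z).card : ℝ) := by
      exact_mod_cast h1
    nlinarith [mul_le_mul_of_nonneg_right h2 hp]

lemma Q_pow_le (B : Finset V) (k : ℕ) (hk : 1 ≤ k) (hB : B.card ≤ k + 1) (M : ℝ) (hM : 1 ≤ M)
    (hdeg : ∀ z, M ≤ (k : ℝ) + 1 - ((nb G z).card : ℝ)) (N : Finset V) :
    (1 - 1 / M) ^ N.card * Q G B ∅ k ≤ Q G B N k := by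
  have hM0 : 0 < M := by linarith
  have hx0 : 0 ≤ 1 - 1 / M := by
    rw [sub_nonneg, div_le_one hM0]; exact hM
  induction N using Finset.induction_on with
  | empty => simp
  | insert z N hzN ih =>
    rw [Finset.card_insert_of_notMem hzN, pow_succ]
    have hstep : (1 - 1 / M) * Q G B N k ≤ Q G B (insert z N) k := by
      by_cases hz : z ∈ B
      · rw [Q_rec G B N z hz hzN k]
        have h1 : Q G (B.erase z) (N ∪ nb G z) k ≤ Q G (B.erase z) N k :=
          Q_anti G _ Finset.subset_union_left k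
        have h2 := Q_erase_le G B N z hz hzN k hk hB
        have h3 : M * Q G (B.erase z) N k ≤ Q G B N k :=
          (mul_le_mul_of_nonneg_right (hdeg z) (Q_nonneg G _ _ _)).trans h2
        have h4 : Q G (B.erase z) N k ≤ Q G B N k / M := by
          rw [le_div_iff₀ hM0, mul_comm]; exact h3
        have h5 : (1 - 1 / M) * Q G B N k = Q G B N k - Q G B N k / M := by ring
        linarith
      · have e : Q G B (insert z N) k = Q G B N k := by
          apply Q_congr
          intro s hs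
          rw [Finset.mem_insert]
          constructor
          · rintro (rfl | h)
            · exact absurd hs hz
            · exact h
          · exact Or.inr
        rw [e]
        have h1 : 0 ≤ 1 / M := by positivity
        nlinarith [Q_nonneg G B N k]
    calc (1 - 1 / M) ^ N.card * (1 - 1 / M) * Q G B ∅ k
        = (1 - 1 / M) * ((1 - 1 / M) ^ N.card * Q G B ∅ k) := by ring
      _ ≤ (1 - 1 / M) * Q G B N k := mul_le_mul_of_nonneg_left ih hx0
      _ ≤ _ := hstep

lemma Q_self (B : Finset V) (k : ℕ) : Q G B B k = ((k : ℝ) + 1) * p G B k := by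
  unfold Q
  congr 1
  have : (J G B).filter (fun S => Disjoint S B) = {∅} := by
    ext S
    rw [Finset.mem_filter, mem_J, Finset.mem_singleton]
    constructor
    · rintro ⟨⟨h1, _⟩, h2⟩
      exact Finset.disjoint_self_iff_empty S |>.1 (Finset.disjoint_of_subset_right h1 h2)
    · rintro rfl
      simp
  rw [this]
  simp

lemma p_ratio (B : Finset V) (k : ℕ) (hk : 1 ≤ k) (hB : B.card ≤ k + 1) (M : ℝ) (hM : 1 ≤ M)
    (hdeg : ∀ z, M ≤ (k : ℝ) + 1 - ((nb G z).card : ℝ)) :
    (1 - 1 / M) ^ B.card * p G B (k + 1) ≤ p G B k := by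
  have h := Q_pow_le G B k hk hB M hM hdeg B
  rw [Q_self, Q_empty] at h
  have hK : (0 : ℝ) < (k : ℝ) + 1 := by positivity
  have h' : ((k : ℝ) + 1) * ((1 - 1 / M) ^ B.card * p G B (k + 1)) ≤ ((k : ℝ) + 1) * p G B k := by
    calc _ = (1 - 1 / M) ^ B.card * (((k : ℝ) + 1) * p G B (k + 1)) := by ring
      _ ≤ _ := h
  exact le_of_mul_le_mul_left h' hK

theorem rel_dense (k D : ℕ) (hk1 : 1 ≤ k) (hD : ∀ z, (nb G z).card ≤ D) (hM : D < k) :
    Rel G k (2 * ((((k : ℝ) + 1 - D) / ((k : ℝ) + 1 - D - 1)) ^ k) / ((k : ℝ) + 1 - D)) := by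
  intro B hB z hz
  have hlt := card_erase_lt B z hz
  have hDR : (D : ℝ) < (k : ℝ) := by exact_mod_cast hM
  set M := (k : ℝ) + 1 - D with hMdef
  have hM1 : 1 < M := by rw [hMdef]; linarith
  have hM0 : 0 < M := by linarith
  have hM10 : 0 < M - 1 := by linarith
  have hr1 : 1 ≤ M / (M - 1) := by rw [le_div_iff₀ hM10]; linarith
  set E := (M / (M - 1)) ^ k with hE
  have hE1 : 1 ≤ E := one_le_pow₀ hr1
  set B' := B.erase z with hB'
  set N' := nb G z ∩ B' with hN'
  have hcongr : ∀ j, av G B' (nb G z) j = av G B' N' j := by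
    intro j
    apply av_congr
    intro s hs
    simp [hN', hs]
  have hB'k : B'.card ≤ k := by omega
  have hN'k : (N'.card : ℝ) ≤ (k : ℝ) + 1 := by
    have : N'.card ≤ B'.card := Finset.card_le_card Finset.inter_subset_right
    have h2 : N'.card ≤ k + 1 := by omega
    exact_mod_cast h2
  have hdiff := av_diff G B' N' Finset.inter_subset_right k hB'k
  have p0 : 0 < p G B' k := p_pos G B' k hB'k
  have p1 : 0 < p G B' (k + 1) := p_pos G B' (k + 1) (by omega)
  have hdeg : ∀ z, M ≤ (k : ℝ) + 1 - ((nb G z).card : ℝ) := by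
    intro y
    have : ((nb G y).card : ℝ) ≤ D := by exact_mod_cast hD y
    rw [hMdef]; linarith
  have hpr := p_ratio G B' k hk1 (by omega) M hM1.le hdeg
  -- p1 / p0 ≤ E
  have hinv : (M / (M - 1)) ^ B'.card * (1 - 1 / M) ^ B'.card = 1 := by
    rw [← mul_pow]
    have : M / (M - 1) * (1 - 1 / M) = 1 := by
      field_simp
    rw [this, one_pow]
  have hpE : p G B' (k + 1) ≤ E * p G B' k := by
    calc p G B' (k + 1) = (M / (M - 1)) ^ B'.card * ((1 - 1 / M) ^ B'.card * p G B' (k + 1)) := by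
          rw [← mul_assoc, hinv, one_mul]
      _ ≤ (M / (M - 1)) ^ B'.card * p G B' k := mul_le_mul_of_nonneg_left hpr (by positivity)
      _ ≤ E * p G B' k := by
          refine mul_le_mul_of_nonneg_right ?_ p0.le
          exact pow_le_pow_right₀ hr1 hB'k
  have hK : (0 : ℝ) < (k : ℝ) + 1 := by positivity
  have hterm : (N'.card : ℝ) * (p G B' (k + 1) / (((k : ℝ) + 1) * p G B' k)) ≤ E := by
    have h1 : p G B' (k + 1) / (((k : ℝ) + 1) * p G B' k) ≤ E / ((k : ℝ) + 1) := by
      rw [div_le_div_iff₀ (mul_pos hK p0) hK]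
      nlinarith [mul_le_mul_of_nonneg_right hpE hK.le]
    calc (N'.card : ℝ) * (p G B' (k + 1) / (((k : ℝ) + 1) * p G B' k))
        ≤ ((k : ℝ) + 1) * (E / ((k : ℝ) + 1)) := by
          apply mul_le_mul hN'k h1 (by positivity) hK.le
      _ = E := by field_simp
  have hav : M ≤ av G B' (nb G z) k := by
    have h1 := av_ge G B' k (by omega) (nb G z)
    have h2 := hdeg z
    linarith
  have hs : 0 ≤ 2 * E / M := by positivity
  have h5 : 2 * E / M * M ≤ 2 * E / M * av G B' (nb G z) k := mul_le_mul_of_nonneg_left hav hs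
  have h6 : 2 * E / M * M = 2 * E := by field_simp
  rw [hcongr k] at h5
  rw [hcongr k, hcongr (k + 1)]
  linarith

lemma num_dense (K d D E M : ℝ) (hMdef : M = K - D) (hd : 1 ≤ d) (hD : 0 ≤ D) (hM : 1 < M)
    (hE : 1 ≤ E) (hcond : 12 * d * K * E ≤ M ^ 2) :
    0 ≤ 1 - d * ((1 + (d + D) * (2 * E / M)) / (K - D)) ∧
    0 ≤ K - D - (d - 1) ∧
    2 * (K * ((d - 1) * (2 * E / M)))
      ≤ (1 - d * ((1 + (d + D) * (2 * E / M)) / (K - D))) * (K - D - (d - 1)) := by
  have hM0 : 0 < M := by linarith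
  have hK : M ≤ K := by linarith
  have hK0 : 0 < K := by linarith
  have hKE : M ≤ K * E := by nlinarith
  have h1 : 12 * d ≤ M := by
    have : 12 * d * M ≤ M * M := by
      have h2 : 12 * d * M ≤ 12 * d * (K * E) := mul_le_mul_of_nonneg_left hKE (by linarith)
      nlinarith
    exact le_of_mul_le_mul_right this hM0
  rw [← hMdef]
  have hM2 : 0 < M ^ 2 := by positivity
  have h2 : (1 + (d + D) * (2 * E / M)) / M ≤ 3 * (K * E) / M ^ 2 := by
    have e : (1 + (d + D) * (2 * E / M)) / M = (M + (d + D) * (2 * E)) / M ^ 2 := by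
      field_simp
    rw [e]
    apply div_le_div_of_nonneg_right _ hM2.le
    have h3 : (d + D) * (2 * E) ≤ K * (2 * E) :=
      mul_le_mul_of_nonneg_right (by linarith) (by linarith)
    linarith
  have h3 : d * (3 * (K * E) / M ^ 2) ≤ 1 / 4 := by
    rw [← mul_div_assoc, div_le_iff₀ hM2]
    linarith
  have h4 : d * ((1 + (d + D) * (2 * E / M)) / M) ≤ 1 / 4 :=
    (mul_le_mul_of_nonneg_left h2 (by linarith)).trans h3
  set c := 1 - d * ((1 + (d + D) * (2 * E / M)) / M) with hc
  have hc34 : 3 / 4 ≤ c := by linarith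
  refine ⟨by linarith, by linarith, ?_⟩
  have h5 : 2 * (K * ((d - 1) * (2 * E / M))) ≤ M / 3 := by
    have e : 2 * (K * ((d - 1) * (2 * E / M))) = (4 * (d - 1) * K * E) / M := by
      field_simp
      ring
    rw [e, div_le_iff₀ hM0]
    have h6 : (d - 1) * (K * E) ≤ d * (K * E) :=
      mul_le_mul_of_nonneg_right (by linarith) (by positivity)
    nlinarith
  have h7 : (3 / 4) * (M - (d - 1)) ≤ c * (M - (d - 1)) :=
    mul_le_mul_of_nonneg_right hc34 (by linarith)
  linarith

/-- Dense case, explicit form. -/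
theorem main_dense (k : ℕ) (hn : Fintype.card V ≤ k + 2) (u v : V) (huv : G.Adj u v)
    (D : ℕ) (hD : ∀ z, (nb G z).card ≤ D) (hM : D < k)
    (hcond : 12 * ((nb G u).card : ℝ) * ((k : ℝ) + 1)
        * ((((k : ℝ) + 1 - D) / ((k : ℝ) + 1 - D - 1)) ^ k) ≤ ((k : ℝ) + 1 - D) ^ 2) :
    p G Finset.univ (k + 1) * p (G.deleteEdges {s(u, v)}) Finset.univ (k + 2)
      ≤ p (G.deleteEdges {s(u, v)}) Finset.univ (k + 1) * p G Finset.univ (k + 2) := by
  set d := (nb G u).card with hd
  have hd1 : 1 ≤ d := Finset.card_pos.2 ⟨v, (mem_nb G).2 huv⟩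
  have hDR : (D : ℝ) < (k : ℝ) := by exact_mod_cast hM
  have hdR1 : (1 : ℝ) ≤ d := by exact_mod_cast hd1
  have hM1 : 1 < (k : ℝ) + 1 - D := by linarith
  have hr1 : 1 ≤ ((k : ℝ) + 1 - D) / ((k : ℝ) + 1 - D - 1) := by
    rw [le_div_iff₀ (by linarith)]; linarith
  have hE1 : 1 ≤ (((k : ℝ) + 1 - D) / ((k : ℝ) + 1 - D - 1)) ^ k := one_le_pow₀ hr1
  obtain ⟨h1, h2, h3⟩ := num_dense ((k : ℝ) + 1) d D _ ((k : ℝ) + 1 - D) rfl hdR1
    (by positivity) hM1 hE1 hcond
  exact main_one G k hn u v huv D d _ (div_nonneg (by linarith) (by linarith))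
    (rel_dense G k D (by omega) hD hM) hD (by omega)
    le_rfl h1 h2 h3

end

end Pool.Agent.H6R3.BW
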