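import Mathlib
import Pool.Agent.H6R3.BW.Dense2

set_option autoImplicit false

open Finset Polynomial

namespace Pool.Agent.H6R3.BW

open Pool.Agent.H331R2.ChromLC

noncomputable section

open Classical

variable {V : Type*} [Fintype V] (G : SimpleGraph V)

lemma p_coloring (k : ℕ) : p G Finset.univ k = (Nat.card (G.Coloring (Fin k)) : ℝ) := by
  unfold p
  rw [P_nat, card_C_univ]

lemma nb_ncard (z : V) : (G.neighborSet z).ncard = (nb G z).card := by
  rw [← Set.ncard_coe_finset]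
  congr 1
  ext x
  simp [nb]

theorem ratio_of (G' : SimpleGraph V) (k : ℕ) (hn : Fintype.card V ≤ k + 2)
    (h : p G Finset.univ (k + 1) * p G' Finset.univ (k + 2)
      ≤ p G' Finset.univ (k + 1) * p G Finset.univ (k + 2)) :
    (Nat.card (G.Coloring (Fin (k + 2 - 1))) : ℝ) / (Nat.card (G.Coloring (Fin (k + 2))) : ℝ)
      ≤ (Nat.card (G'.Coloring (Fin (k + 2 - 1))) : ℝ)
        / (Nat.card (G'.Coloring (Fin (k + 2))) : ℝ) := by
  have e : k + 2 - 1 = k + 1 := by omega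
  rw [e, ← p_coloring, ← p_coloring, ← p_coloring, ← p_coloring]
  have hcard : (Finset.univ : Finset V).card ≤ k + 2 := by rw [Finset.card_univ]; exact hn
  rw [div_le_div_iff₀ (p_pos G _ _ hcard) (p_pos G' _ _ hcard)]
  exact h

theorem exists_k (q : ℕ) (hq : Fintype.card V ≤ q) (u v : V) (huv : G.Adj u v) :
    ∃ k, q = k + 2 := by
  have h2 : 2 ≤ Fintype.card V := by
    have := Finset.card_le_univ ({u, v} : Finset V)
    rwa [Finset.card_pair huv.ne] at this
  exact ⟨q - 2, by omega⟩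

theorem final_half (q D : ℕ) (hq : Fintype.card V ≤ q)
    (hD : ∀ z, (G.neighborSet z).ncard ≤ D) (u v : V) (huv : G.Adj u v)
    (hu : 5 * (G.neighborSet u).ncard + 2 * D ≤ q) :
    (Nat.card (G.Coloring (Fin (q - 1))) : ℝ) / (Nat.card (G.Coloring (Fin q)) : ℝ)
      ≤ (Nat.card ((G.deleteEdges {s(u, v)}).Coloring (Fin (q - 1))) : ℝ)
        / (Nat.card ((G.deleteEdges {s(u, v)}).Coloring (Fin q)) : ℝ) := by
  obtain ⟨k, rfl⟩ := exists_k G q hq u v huv
  refine ratio_of G _ k hq (main_half G k hq u v huv D ?_ ?_)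
  · intro z; rw [← nb_ncard]; exact hD z
  · rw [← nb_ncard]; exact hu

theorem final_local (q d D : ℕ) (hq : Fintype.card V ≤ q) (u v h : V) (huv : G.Adj u v)
    (hu : (G.neighborSet u).ncard ≤ d) (hv : (G.neighborSet v).ncard ≤ d)
    (hD : ∀ z, (G.Adj u z ∨ G.Adj v z) → z ≠ h → (G.neighborSet z).ncard ≤ D)
    (hcond : 3 * d ^ 2 + D ≤ q) :
    (Nat.card (G.Coloring (Fin (q - 1))) : ℝ) / (Nat.card (G.Coloring (Fin q)) : ℝ)
      ≤ (Nat.card ((G.deleteEdges {s(u, v)}).Coloring (Fin (q - 1))) : ℝ)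
        / (Nat.card ((G.deleteEdges {s(u, v)}).Coloring (Fin q)) : ℝ) := by
  obtain ⟨k, rfl⟩ := exists_k G q hq u v huv
  refine ratio_of G _ k hq (main_local G k hq u v huv D d h ?_ ?_ ?_ hcond)
  · intro z h1 h2; rw [← nb_ncard]; exact hD z h1 h2
  · rw [← nb_ncard]; exact hu
  · rw [← nb_ncard]; exact hv

theorem final_dense (q : ℕ) (hq : Fintype.card V ≤ q) (θ : ℝ) (hθ : 0 < θ) (hθ1 : θ ≤ 1)
    (hD : ∀ z, ((G.neighborSet z).ncard : ℝ) ≤ (1 - θ) * ((q : ℝ) - 1)) (u v : V)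
    (huv : G.Adj u v)
    (hu : 12 * ((G.neighborSet u).ncard : ℝ) * Real.exp (12 / (11 * θ))
      ≤ θ ^ 2 * ((q : ℝ) - 1)) :
    (Nat.card (G.Coloring (Fin (q - 1))) : ℝ) / (Nat.card (G.Coloring (Fin q)) : ℝ)
      ≤ (Nat.card ((G.deleteEdges {s(u, v)}).Coloring (Fin (q - 1))) : ℝ)
        / (Nat.card ((G.deleteEdges {s(u, v)}).Coloring (Fin q)) : ℝ) := by
  obtain ⟨k, rfl⟩ := exists_k G q hq u v huv
  push_cast at hD hu
  have eK : (k : ℝ) + 2 - 1 = (k : ℝ) + 1 := by ring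
  rw [eK] at hD hu
  set K : ℝ := (k : ℝ) + 1 with hK
  have hK0 : 0 < K := by positivity
  have hd1 : (1 : ℝ) ≤ ((G.neighborSet u).ncard : ℝ) := by
    rw [nb_ncard]
    have : 0 < (nb G u).card := Finset.card_pos.2 ⟨v, (mem_nb G).2 huv⟩
    exact_mod_cast this
  set d : ℝ := ((G.neighborSet u).ncard : ℝ) with hd
  have hexp1 : 1 ≤ Real.exp (12 / (11 * θ)) := Real.one_le_exp (by positivity)
  -- θ^2 K ≥ 12
  have h12 : 12 ≤ θ ^ 2 * K := by
    have : 12 ≤ 12 * d * Real.exp (12 / (11 * θ)) := by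
      have h1 : 12 * 1 ≤ 12 * d * Real.exp (12 / (11 * θ)) := by
        apply mul_le_mul _ hexp1 (by norm_num) (by positivity)
        linarith
      linarith
    linarith
  have hθK : 12 ≤ θ * K := by
    have : θ ^ 2 * K ≤ θ * K := by
      have h1 : θ ^ 2 ≤ θ := by nlinarith
      exact mul_le_mul_of_nonneg_right h1 hK0.le
    linarith
  have hDnn : 0 ≤ (1 - θ) * K := mul_nonneg (by linarith) hK0.le
  set D := ⌊(1 - θ) * K⌋₊ with hDdef
  have hDle : (D : ℝ) ≤ (1 - θ) * K := Nat.floor_le hDnn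
  have hMθ : θ * K ≤ K - D := by linarith
  have hDk : D < k := by
    have : (D : ℝ) < (k : ℝ) := by
      have : (k : ℝ) = K - 1 := by rw [hK]; ring
      linarith
    exact_mod_cast this
  have hdeg : ∀ z, (nb G z).card ≤ D := by
    intro z
    rw [← nb_ncard]
    exact Nat.le_floor (hD z)
  refine ratio_of G _ k hq (main_dense G k hq u v huv D hdeg hDk ?_)
  rw [← nb_ncard, ← hd, ← hK]
  set M := K - D with hM
  have hM12 : 12 ≤ M := by linarith
  have hM10 : 0 < M - 1 := by linarith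
  have hbase : M / (M - 1) ≤ Real.exp (1 / (M - 1)) := by
    have h1 := Real.add_one_le_exp (1 / (M - 1))
    have h2 : M / (M - 1) = 1 / (M - 1) + 1 := by
      rw [div_add_one hM10.ne']
      congr 1
      ring
    rw [h2]; exact h1
  have hE : (M / (M - 1)) ^ k ≤ Real.exp (12 / (11 * θ)) := by
    calc (M / (M - 1)) ^ k ≤ (Real.exp (1 / (M - 1))) ^ k :=
          pow_le_pow_left₀ (by positivity) hbase k
      _ = Real.exp ((k : ℝ) * (1 / (M - 1))) := by rw [← Real.exp_nat_mul]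
      _ ≤ Real.exp (12 / (11 * θ)) := by
          apply Real.exp_le_exp.2
          rw [mul_one_div, div_le_div_iff₀ hM10 (by positivity)]
          have hkK : (k : ℝ) ≤ K := by rw [hK]; linarith
          have h1 : (k : ℝ) * (11 * θ) ≤ K * (11 * θ) :=
            mul_le_mul_of_nonneg_right hkK (by positivity)
          nlinarith
  have hE0 : 0 ≤ (M / (M - 1)) ^ k := by positivity
  calc 12 * d * K * (M / (M - 1)) ^ k ≤ 12 * d * K * Real.exp (12 / (11 * θ)) :=
        mul_le_mul_of_nonneg_left hE (by positivity)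
    _ = (12 * d * Real.exp (12 / (11 * θ))) * K := by ring
    _ ≤ (θ ^ 2 * K) * K := mul_le_mul_of_nonneg_right hu hK0.le
    _ = (θ * K) ^ 2 := by ring
    _ ≤ M ^ 2 := pow_le_pow_left₀ (by positivity) hMθ 2

end

end Pool.Agent.H6R3.BW
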